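import Pool.Agent.Results.MP_be1fae_nt.RandomPrimeSets
import Pool.Agent.W350.EdgeNF
import Pool.Agent.H484R2.Pit

/-! A lower bound for the number of the primes of a number field, from the prime ideal theorem. -/

set_option autoImplicit false

namespace Pool.Agent.X61.RS.NK

open NumberField IsDedekindDomain Finset Filter

open Classical in
theorem hom_sum_le (K : Type) [Field K] [NumberField K] (S₀ P : Finset (HeightOneSpectrum (𝓞 K)))
    (N : ℕ) (hP : ∀ v : HeightOneSpectrum (𝓞 K), Ideal.absNorm v.asIdeal ≤ N → v ∉ S₀ → v ∈ P) :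
    ∑ p ∈ (range (N + 1)).filter Nat.Prime, Nat.card (𝓞 K →+* ZMod p) ≤ P.card + S₀.card := by
  have h1 : ∀ p ∈ (range (N + 1)).filter Nat.Prime, Nat.card (𝓞 K →+* ZMod p) ≤
      ((P ∪ S₀).filter (fun v => Ideal.absNorm v.asIdeal = p)).card := by
    intro p hp
    rw [mem_filter, mem_range] at hp
    have e := Nat.card_congr (Pool.Agent.W350.EdgeNF.homEquiv (K := K) p hp.2)
    rw [e]
    have hsub : ((Pool.Agent.H921R2.TatePole.nm : HeightOneSpectrum (𝓞 K) → ℕ) ⁻¹' {p}) ⊆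
        (((P ∪ S₀).filter (fun v => Ideal.absNorm v.asIdeal = p) :
          Finset (HeightOneSpectrum (𝓞 K))) : Set (HeightOneSpectrum (𝓞 K))) := by
      intro v hv
      have hv' : Ideal.absNorm v.asIdeal = p := hv
      rw [mem_coe, mem_filter, mem_union]
      refine ⟨?_, hv'⟩
      by_cases hS : v ∈ S₀
      · exact Or.inr hS
      · exact Or.inl (hP v (by omega) hS)
    rw [← Set.ncard_coe_finset]
    exact Set.ncard_le_ncard hsub (Finset.finite_toSet _)
  refine (sum_le_sum h1).trans (le_trans ?_ (card_union_le P S₀))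
  rw [← card_biUnion]
  · refine card_le_card ?_
    intro v hv
    rw [mem_biUnion] at hv
    obtain ⟨p, -, hp⟩ := hv
    exact (mem_filter.1 hp).1
  · intro p _ p' _ hpp
    rw [Function.onFun, disjoint_left]
    intro v hv hv'
    rw [mem_filter] at hv hv'
    exact hpp (hv.2.symm.trans hv'.2)

theorem primes_lower (K : Type) [Field K] [NumberField K] (S₀ : Finset (HeightOneSpectrum (𝓞 K)))
    {η : ℝ} (hη : 0 < η) (hη1 : η < 1) : ∃ N₀ : ℕ, ∀ N : ℕ, N₀ ≤ N →
      ∀ P : Finset (HeightOneSpectrum (𝓞 K)),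
        (∀ v : HeightOneSpectrum (𝓞 K), Ideal.absNorm v.asIdeal ≤ N → v ∉ S₀ → v ∈ P) →
        (N : ℝ) ^ (1 - η) ≤ P.card := by
  obtain ⟨N₁, hN₁⟩ := Pool.Agent.Results.MP_be1fae_nt.RandomPrimeSets.card_primes ∅
    (half_pos hη) (by linarith)
  have h1 := (Pool.Agent.H484R2.pit K).eventually (lt_mem_nhds (show (1 / 2 : ℝ) < 1 by norm_num))
  obtain ⟨N₂, hN₂⟩ := eventually_atTop.1 h1
  have h2 : ∀ᶠ x : ℝ in atTop, 4 ≤ x ^ (η / 2) := (tendsto_rpow_atTop (half_pos hη)).eventually_ge_atTop _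
  have h3 : ∀ᶠ x : ℝ in atTop, (S₀.card : ℝ) ≤ x ^ (1 - η) :=
    (tendsto_rpow_atTop (by linarith)).eventually_ge_atTop _
  obtain ⟨X, hX⟩ := eventually_atTop.1 (h2.and h3)
  obtain ⟨N₃, hN₃⟩ := exists_nat_ge (max X 2)
  refine ⟨max N₁ (max N₂ N₃), fun N hN P hP => ?_⟩
  have e1 : N₁ ≤ N := (le_max_left _ _).trans hN
  have e2 : N₂ ≤ N := ((le_max_left _ _).trans (le_max_right _ _)).trans hN
  have e3 : N₃ ≤ N := ((le_max_right _ _).trans (le_max_right _ _)).trans hN
  have hNX : max X 2 ≤ N := hN₃.trans (by exact_mod_cast e3)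
  obtain ⟨g1, g2⟩ := hX N ((le_max_left _ _).trans hNX)
  have hN0 : (0 : ℝ) < N := by linarith [(le_max_right X 2).trans hNX]
  have h4 := hN₁ N e1
  have h5 : ((Pool.Agent.Results.MP_be1fae_nt.RandomPrimeSets.primesUpTo ∅ N).card : ℝ) ≤
      (Nat.primeCounting N : ℝ) := by
    have e1 : Nat.primeCounting N = ((range (N + 1)).filter Nat.Prime).card := by
      rw [Nat.primeCounting, Nat.primeCounting', Nat.count_eq_card_filter_range]
    rw [e1]
    refine Nat.cast_le.2 (card_le_card ?_)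
    intro p hp
    rw [Pool.Agent.Results.MP_be1fae_nt.RandomPrimeSets.primesUpTo, mem_filter] at hp
    rw [mem_filter]
    exact ⟨hp.1, hp.2.1⟩
  have h6 := hN₂ N e2
  have hpc : (0 : ℝ) < Nat.primeCounting N := lt_of_lt_of_le (by positivity) (h4.trans h5)
  rw [lt_div_iff₀ hpc] at h6
  have h7 : (∑ p ∈ (range (N + 1)).filter Nat.Prime, (Nat.card (𝓞 K →+* ZMod p) : ℝ)) ≤
      P.card + S₀.card := by exact_mod_cast hom_sum_le K S₀ P N hP
  have h8 : (N : ℝ) ^ (1 - η / 2) = (N : ℝ) ^ (1 - η) * (N : ℝ) ^ (η / 2) := by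
    rw [← Real.rpow_add hN0]
    congr 1
    ring
  have h9 : 4 * (N : ℝ) ^ (1 - η) ≤ (N : ℝ) ^ (1 - η / 2) := by
    rw [h8, mul_comm]
    exact mul_le_mul_of_nonneg_left g1 (by positivity)
  linarith

end Pool.Agent.X61.RS.NK
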