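import Mathlib

/-! Counting lemmas for random sets of primes. -/

set_option autoImplicit false

namespace Pool.Agent.X61.RS

open Finset

/-- the number of the `k`-element subsets of `P` containing `T` -/
theorem card_supersets (P T : Finset ℕ) (hT : T ⊆ P) (k : ℕ) :
    ((P.powersetCard k).filter (fun S => T ⊆ S)).card ≤
      (P.card - T.card).choose (k - T.card) := by
  rw [← card_sdiff_of_subset hT, ← card_powersetCard]
  refine card_le_card_of_injOn (fun S => S \ T) ?_ ?_
  · intro S hS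
    rw [mem_coe, mem_filter, mem_powersetCard] at hS
    rw [mem_coe, mem_powersetCard]
    exact ⟨sdiff_subset_sdiff hS.1.1 (Subset.refl T), by
      rw [card_sdiff_of_subset hS.2, hS.1.2]⟩
  · intro S hS S' hS' h
    rw [mem_coe, mem_filter] at hS hS'
    have h1 : S \ T = S' \ T := h
    rw [← sdiff_union_of_subset hS.2, ← sdiff_union_of_subset hS'.2, h1]

theorem choose_step {M k j : ℕ} (hj : j < k) (hk : k ≤ M) :
    (M - (j + 1)).choose (k - (j + 1)) * M ≤ (M - j).choose (k - j) * k := by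
  obtain ⟨m, hm⟩ : ∃ m, M - j = m + 1 := ⟨M - (j + 1), by omega⟩
  obtain ⟨l, hl⟩ : ∃ l, k - j = l + 1 := ⟨k - (j + 1), by omega⟩
  have e1 : M - (j + 1) = m := by omega
  have e2 : k - (j + 1) = l := by omega
  rw [e1, e2, hm, hl]
  have h1 := Nat.add_one_mul_choose_eq m l
  -- (m+1) * m.choose l = (m+1).choose (l+1) * (l+1)
  have h2 : (l + 1) * M ≤ (m + 1) * k := by
    have e3 : M = m + 1 + j := by omega
    have e4 : k = l + 1 + j := by omega
    rw [e3, e4]
    have : l + 1 ≤ m + 1 := by omega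
    nlinarith
  have h3 : (m + 1) * (m.choose l * M) ≤ (m + 1) * ((m + 1).choose (l + 1) * k) := by
    calc (m + 1) * (m.choose l * M) = ((m + 1) * m.choose l) * M := by ring
      _ = ((m + 1).choose (l + 1) * (l + 1)) * M := by rw [h1]
      _ = (m + 1).choose (l + 1) * ((l + 1) * M) := by ring
      _ ≤ (m + 1).choose (l + 1) * ((m + 1) * k) := Nat.mul_le_mul_left _ h2
      _ = _ := by ring
  exact Nat.le_of_mul_le_mul_left h3 (by omega)

theorem choose_ratio {M k : ℕ} (hk : k ≤ M) : ∀ j : ℕ, j ≤ k →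
    (M - j).choose (k - j) * M ^ j ≤ M.choose k * k ^ j := by
  intro j
  induction j with
  | zero => intro _; simp
  | succ j ih =>
    intro hj
    have h1 := ih (by omega)
    have h2 := choose_step (M := M) (k := k) (j := j) (by omega) hk
    calc (M - (j + 1)).choose (k - (j + 1)) * M ^ (j + 1)
        = ((M - (j + 1)).choose (k - (j + 1)) * M) * M ^ j := by ring
      _ ≤ ((M - j).choose (k - j) * k) * M ^ j := Nat.mul_le_mul_right _ h2
      _ = ((M - j).choose (k - j) * M ^ j) * k := by ring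
      _ ≤ (M.choose k * k ^ j) * k := Nat.mul_le_mul_right _ h1
      _ = _ := by ring

/-- `2 ^ |F| ≤ C (∏ F) ^ ε` for sets of primes -/
theorem two_pow_card {ε : ℝ} (hε : 0 < ε) : ∃ C : ℝ, 1 ≤ C ∧ ∀ F : Finset ℕ,
    (∀ p ∈ F, p.Prime) → (2 : ℝ) ^ F.card ≤ C * ((∏ p ∈ F, p : ℕ) : ℝ) ^ ε := by
  obtain ⟨B, hB⟩ := exists_nat_ge ((2 : ℝ) ^ (1 / ε))
  refine ⟨2 ^ B, one_le_pow₀ (by norm_num), fun F hF => ?_⟩
  have h1 : (2 : ℝ) ^ F.card = ∏ _p ∈ F, (2 : ℝ) := by rw [prod_const]
  have h2 : ((∏ p ∈ F, p : ℕ) : ℝ) ^ ε = ∏ p ∈ F, (p : ℝ) ^ ε := by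
    rw [Nat.cast_prod, Real.finsetProd_rpow _ _ (fun p _ => Nat.cast_nonneg p)]
  rw [h1, h2, ← prod_filter_mul_prod_filter_not F (fun p => p < B) (fun _ => (2 : ℝ))]
  have h3 : ∏ _p ∈ F.filter (fun p => p < B), (2 : ℝ) ≤ 2 ^ B := by
    rw [prod_const]
    apply pow_le_pow_right₀ (by norm_num)
    calc (F.filter (fun p => p < B)).card ≤ (range B).card := card_le_card (by
          intro p hp
          rw [mem_filter] at hp
          exact mem_range.2 hp.2)
      _ = B := card_range B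
  have h4 : ∏ _p ∈ F.filter (fun p => ¬ p < B), (2 : ℝ) ≤ ∏ p ∈ F, (p : ℝ) ^ ε := by
    calc ∏ _p ∈ F.filter (fun p => ¬ p < B), (2 : ℝ)
        ≤ ∏ p ∈ F.filter (fun p => ¬ p < B), (p : ℝ) ^ ε := by
          refine prod_le_prod (fun _ _ => by norm_num) fun p hp => ?_
          rw [mem_filter] at hp
          have h5 : (2 : ℝ) ^ (1 / ε) ≤ p := hB.trans (by exact_mod_cast (not_lt.1 hp.2))
          calc (2 : ℝ) = ((2 : ℝ) ^ (1 / ε)) ^ ε := by
                rw [← Real.rpow_mul (by norm_num), one_div_mul_cancel hε.ne', Real.rpow_one]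
            _ ≤ _ := Real.rpow_le_rpow (by positivity) h5 hε.le
      _ ≤ ∏ p ∈ F, (p : ℝ) ^ ε := by
          rw [← prod_filter_mul_prod_filter_not F (fun p => p < B) (fun p : ℕ => (p : ℝ) ^ ε)]
          have h6 : (1 : ℝ) ≤ ∏ p ∈ F.filter (fun p => p < B), (p : ℝ) ^ ε := by
            calc (1 : ℝ) = ∏ _p ∈ F.filter (fun p => p < B), (1 : ℝ) := by simp
              _ ≤ _ := prod_le_prod (fun _ _ => zero_le_one) fun p hp => by
                rw [mem_filter] at hp
                exact Real.one_le_rpow (by exact_mod_cast (hF p hp.1).one_le) hε.le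
          exact le_mul_of_one_le_left (prod_nonneg fun _ _ => by positivity) h6
  calc _ ≤ 2 ^ B * ∏ p ∈ F, (p : ℝ) ^ ε := by
        refine mul_le_mul h3 h4 (prod_nonneg fun _ _ => by norm_num) (by positivity)
    _ = _ := rfl

/-- geometric sum -/
theorem geom {q : ℝ} (h0 : 0 ≤ q) (h1 : q ≤ 1 / 2) (k : ℕ) : ∑ j ∈ Icc 1 k, q ^ j ≤ 2 * q := by
  induction k with
  | zero => simp; linarith
  | succ k _ =>
    have h3 : ∀ n : ℕ, (∑ j ∈ Icc 1 n, q ^ j) * (1 - q) = q - q ^ (n + 1) := by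
      intro n
      induction n with
      | zero => simp
      | succ n ih =>
        rw [sum_Icc_succ_top (by omega), add_mul, ih]
        ring
    have h4 := h3 (k + 1)
    have h5 : 0 ≤ q ^ (k + 1 + 1) := by positivity
    have h6 : 0 ≤ ∑ j ∈ Icc 1 (k + 1), q ^ j := sum_nonneg fun j _ => by positivity
    nlinarith

end Pool.Agent.X61.RS
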