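import Pool.Agent.X61.RS.Base

/-! Random sets of primes, abstract form: families of finite sets in a weighted set. -/

set_option autoImplicit false

namespace Pool.Agent.X61.RS

open Finset

/-- the number of the `k`-element subsets of `P` containing `T` -/
theorem card_supersets' {ι : Type*} [DecidableEq ι] (P T : Finset ι) (hT : T ⊆ P) (k : ℕ) :
    ((P.powersetCard k).filter (fun S => T ⊆ S)).card ≤
      (P.card - T.card).choose (k - T.card) := by
  rw [← card_sdiff_of_subset hT, ← card_powersetCard]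
  refine card_le_card_of_injOn (fun S => S \ T) ?_ ?_
  · intro S hS
    rw [mem_coe, mem_filter, mem_powersetCard] at hS
    rw [mem_coe, mem_powersetCard]
    exact ⟨sdiff_subset_sdiff hS.1.1 (Subset.refl T), by
      rw [card_sdiff_of_subset hS.2, hS.1.2]⟩
  · intro S hS S' hS' h
    rw [mem_coe, mem_filter] at hS hS'
    have h1 : S \ T = S' \ T := h
    rw [← sdiff_union_of_subset hS.2, ← sdiff_union_of_subset hS'.2, h1]

/-- a member `F` of the family `𝓕` meets `S`, and the weight of the part of `F` outside `S₀ ∪ S` is at most `Y` -/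
def BadF {ι : Type*} [DecidableEq ι] (w : ι → ℝ) (𝓕 : Set (Finset ι)) (S₀ S : Finset ι) (Y : ℝ) : Prop :=
  ∃ F ∈ 𝓕, (∃ p ∈ S, p ∈ F) ∧ ∏ i ∈ F.filter (fun i => i ∉ S₀ ∧ i ∉ S), w i ≤ Y

theorem fin_of_bound {α : Type*} (A : Set α) (c : ℝ)
    (h : ∀ G : Finset α, (∀ x ∈ G, x ∈ A) → (G.card : ℝ) ≤ c) : A.Finite := by
  by_contra hA
  have hA' : A.Infinite := hA
  obtain ⟨n, hn⟩ := exists_nat_gt c
  obtain ⟨G, hG, hc⟩ := hA'.exists_subset_card_eq n
  have := h G (fun x hx => hG hx)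
  rw [hc] at this
  linarith

theorem prod_mono {ι : Type*} [DecidableEq ι] (w : ι → ℝ) (hw : ∀ i, 1 ≤ w i) {A B : Finset ι} (h : A ⊆ B) :
    ∏ i ∈ A, w i ≤ ∏ i ∈ B, w i := by
  rw [← prod_sdiff h]
  have h1 : (1 : ℝ) ≤ ∏ i ∈ B \ A, w i := by
    calc (1 : ℝ) = ∏ _i ∈ B \ A, (1 : ℝ) := by simp
      _ ≤ _ := prod_le_prod (fun _ _ => zero_le_one) fun i _ => hw i
  exact le_mul_of_one_le_left (prod_nonneg fun i _ => by linarith [hw i]) h1

open Classical in
theorem fam_count {ι : Type*} [DecidableEq ι] (w : ι → ℝ) (hw : ∀ i, 1 ≤ w i) (𝓕 : Set (Finset ι))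
    {C₁ C₂ σ ε : ℝ} (hC₁ : 0 < C₁) (hC₂ : 0 < C₂) (hσ : 0 ≤ σ) (hε : 0 ≤ ε)
    (h1 : ∀ X : ℝ, 1 ≤ X → ∀ G : Finset (Finset ι), (∀ F ∈ G, F ∈ 𝓕 ∧ ∏ i ∈ F, w i ≤ X) →
      (G.card : ℝ) ≤ C₁ * X ^ σ)
    (h2 : ∀ F : Finset ι, (2 : ℝ) ^ F.card ≤ C₂ * (∏ i ∈ F, w i) ^ ε)
    (S₀ P : Finset ι) (hdis : ∀ p ∈ P, p ∉ S₀) (N Y : ℝ) (hN : ∀ p ∈ P, w p ≤ N) (hY : 1 ≤ Y)
    (k : ℕ) :
    (((P.powersetCard k).filter (fun S => BadF w 𝓕 S₀ S Y)).card : ℝ) * P.card ≤
      (2 * (C₁ * C₂) + 2) * k * (N * Y * ∏ i ∈ S₀, w i) ^ (σ + ε) * P.card.choose k := by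
  set M : ℕ := P.card with hM
  set P₀ : ℝ := ∏ p ∈ S₀, w p with hP₀
  have hw0 : ∀ i, 0 < w i := fun i => lt_of_lt_of_le one_pos (hw i)
  have hprod1 : ∀ F : Finset ι, 1 ≤ ∏ i ∈ F, w i := fun F => by
    calc (1 : ℝ) = ∏ _i ∈ F, (1 : ℝ) := by simp
      _ ≤ _ := prod_le_prod (fun _ _ => zero_le_one) fun i _ => hw i
  have hP₀r : (1 : ℝ) ≤ P₀ := hprod1 S₀
  rcases Nat.eq_zero_or_pos k with hk0 | hk0
  · -- no bad sets
    subst hk0
    have : (P.powersetCard 0).filter (fun S => BadF w 𝓕 S₀ S Y) = ∅ := by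
      rw [filter_eq_empty_iff]
      intro S hS hB
      rw [mem_powersetCard, card_eq_zero] at hS
      obtain ⟨F, -, ⟨p, hp, -⟩, -⟩ := hB
      rw [hS.2] at hp
      exact absurd hp (notMem_empty p)
    rw [this, card_empty, Nat.cast_zero, zero_mul]
    simp
  rcases lt_or_ge M k with hMk | hMk
  · rw [powersetCard_eq_empty.2 hMk, filter_empty, card_empty, Nat.cast_zero, zero_mul,
      Nat.choose_eq_zero_of_lt hMk]
    simp
  have hM0 : 0 < M := by omega
  have hMr : (0 : ℝ) < M := by exact_mod_cast hM0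
  obtain ⟨p₀, hp₀⟩ : P.Nonempty := by rw [← card_pos]; exact hM0
  have hNr : (1 : ℝ) ≤ N := (hw p₀).trans (hN p₀ hp₀)
  have hN0 : 0 < N := by linarith
  set a : ℝ := σ + ε with ha
  have ha0 : 0 ≤ a := by positivity
  set q : ℝ := N ^ a * k / M with hq
  have hq0 : 0 ≤ q := by positivity
  have hW : (N * Y * P₀) ^ a = N ^ a * (Y * P₀) ^ a := by
    rw [mul_assoc, Real.mul_rpow (by positivity) (by positivity)]
  have hYP : 1 ≤ (Y * P₀) ^ a := Real.one_le_rpow (by nlinarith) ha0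
  rcases lt_or_ge (1 / 2) q with hq2 | hq2
  · -- trivial
    have h3 : (((P.powersetCard k).filter (fun S => BadF w 𝓕 S₀ S Y)).card : ℝ) ≤ M.choose k := by
      have : ((P.powersetCard k).filter (fun S => BadF w 𝓕 S₀ S Y)).card ≤ M.choose k := by
        rw [← card_powersetCard]
        exact card_filter_le _ _
      exact_mod_cast this
    have h4 : (M : ℝ) ≤ 2 * k * N ^ a := by
      rw [hq, lt_div_iff₀ hMr] at hq2
      linarith
    rw [hW]
    calc _ ≤ (M.choose k : ℝ) * (2 * k * N ^ a) :=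
          mul_le_mul h3 h4 hMr.le (by positivity)
      _ = 2 * k * (N ^ a * 1) * M.choose k := by ring
      _ ≤ (2 * (C₁ * C₂) + 2) * k * (N ^ a * (Y * P₀) ^ a) * M.choose k := by
          gcongr
          have : 0 < C₁ * C₂ := by positivity
          linarith
  -- the main case
  let X : ℕ → ℝ := fun j => P₀ * N ^ j * Y
  have hX1 : ∀ j, 1 ≤ X j := by
    intro j
    have h3 : (1 : ℝ) ≤ N ^ j := one_le_pow₀ hNr
    have h4 : (1 : ℝ) ≤ P₀ * N ^ j := by nlinarith
    change 1 ≤ P₀ * N ^ j * Y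
    nlinarith
  have hfin : ∀ j, {F : Finset ι | F ∈ 𝓕 ∧ ∏ i ∈ F, w i ≤ X j}.Finite := fun j =>
    fin_of_bound _ (C₁ * (X j) ^ σ) fun G hG => h1 _ (hX1 j) G hG
  let U : ℕ → Finset (Finset ι) := fun j => (hfin j).toFinset.biUnion (fun F =>
    ((F ∩ P).powersetCard j).biUnion (fun T =>
      (P.powersetCard k).filter (fun S => T ⊆ S)))
  have hcov : (P.powersetCard k).filter (fun S => BadF w 𝓕 S₀ S Y) ⊆ (Icc 1 k).biUnion U := by
    intro S hS
    rw [mem_filter, mem_powersetCard] at hS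
    obtain ⟨⟨hSP, hSk⟩, F, hF, ⟨p, hp, hpF⟩, hout⟩ := hS
    have hT0 : (S ∩ F).Nonempty := ⟨p, mem_inter.2 ⟨hp, hpF⟩⟩
    have hTk : (S ∩ F).card ≤ k := by
      rw [← hSk]
      exact card_le_card inter_subset_left
    rw [mem_biUnion]
    refine ⟨(S ∩ F).card, mem_Icc.2 ⟨card_pos.2 hT0, hTk⟩, ?_⟩
    change S ∈ (hfin (S ∩ F).card).toFinset.biUnion _
    rw [mem_biUnion]
    refine ⟨F, ?_, ?_⟩
    · rw [Set.Finite.mem_toFinset]
      refine ⟨hF, ?_⟩
      have h4 : ∏ p ∈ S ∩ F, w p ≤ N ^ (S ∩ F).card := by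
        rw [← prod_const]
        exact prod_le_prod (fun i _ => (hw0 i).le) fun i hi => hN i (hSP (mem_inter.1 hi).1)
      have h5 : ∏ i ∈ F.filter (fun i => ¬ (i ∉ S₀ ∧ i ∉ S)), w i ≤ P₀ * ∏ p ∈ S ∩ F, w p := by
        have hd : Disjoint S₀ (S ∩ F) := by
          rw [Finset.disjoint_left]
          intro i hi hi'
          exact hdis i (hSP (mem_inter.1 hi').1) hi
        rw [hP₀, ← prod_union hd]
        refine prod_mono w hw fun i hi => ?_
        rw [mem_filter] at hi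
        rw [mem_union, mem_inter]
        tauto
      calc ∏ i ∈ F, w i = (∏ i ∈ F.filter (fun i => i ∉ S₀ ∧ i ∉ S), w i) *
            ∏ i ∈ F.filter (fun i => ¬ (i ∉ S₀ ∧ i ∉ S)), w i :=
            (prod_filter_mul_prod_filter_not _ _ _).symm
        _ ≤ Y * (P₀ * N ^ (S ∩ F).card) := by
            refine mul_le_mul hout (h5.trans ?_) (prod_nonneg fun i _ => (hw0 i).le) (by linarith)
            exact mul_le_mul_of_nonneg_left h4 (by linarith)
        _ = _ := by
            change _ = P₀ * N ^ (S ∩ F).card * Y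
            ring
    · rw [mem_biUnion]
      refine ⟨S ∩ F, ?_, ?_⟩
      · rw [mem_powersetCard]
        refine ⟨?_, rfl⟩
        intro x hx
        rw [mem_inter] at hx ⊢
        exact ⟨hx.2, hSP hx.1⟩
      · rw [mem_filter, mem_powersetCard]
        exact ⟨⟨hSP, hSk⟩, inter_subset_left⟩
  -- the size of `U j`
  have hU : ∀ j ∈ Icc 1 k, ((U j).card : ℝ) ≤
      C₁ * C₂ * (Y * P₀) ^ a * (M.choose k : ℝ) * q ^ j := by
    intro j hj
    rw [mem_Icc] at hj
    have hXj := hX1 j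
    have hXj0 : 0 < X j := by linarith
    have h3 : ∀ F ∈ (hfin j).toFinset,
        ((((F ∩ P).powersetCard j).biUnion (fun T =>
          (P.powersetCard k).filter (fun S => T ⊆ S))).card : ℝ) ≤
        C₂ * (X j) ^ ε * ((M - j).choose (k - j) : ℝ) := by
      intro F hFF
      rw [Set.Finite.mem_toFinset] at hFF
      have h4 : (((F ∩ P).powersetCard j).biUnion (fun T =>
          (P.powersetCard k).filter (fun S => T ⊆ S))).card ≤
          ∑ T ∈ ((F ∩ P).powersetCard j),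
            ((P.powersetCard k).filter (fun S => T ⊆ S)).card := card_biUnion_le
      have h5 : ∑ T ∈ ((F ∩ P).powersetCard j),
            ((P.powersetCard k).filter (fun S => T ⊆ S)).card ≤
          ∑ T ∈ ((F ∩ P).powersetCard j), (M - j).choose (k - j) := by
        refine sum_le_sum fun T hT => ?_
        rw [mem_powersetCard] at hT
        have := card_supersets' P T (hT.1.trans inter_subset_right) k
        rw [hT.2] at this
        exact this
      rw [sum_const, smul_eq_mul] at h5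
      have h6 : ((F ∩ P).powersetCard j).card ≤ 2 ^ F.card := by
        calc _ ≤ (F ∩ P).powerset.card :=
              card_le_card (fun T hT => mem_powerset.2 (mem_powersetCard.1 hT).1)
          _ = 2 ^ (F ∩ P).card := card_powerset _
          _ ≤ _ := Nat.pow_le_pow_right (by norm_num) (card_le_card inter_subset_left)
      have h7 : (2 : ℝ) ^ F.card ≤ C₂ * (X j) ^ ε := by
        refine (h2 F).trans ?_
        refine mul_le_mul_of_nonneg_left ?_ (by positivity)
        exact Real.rpow_le_rpow (by linarith [hprod1 F]) hFF.2 hε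
      calc _ ≤ ((((F ∩ P).powersetCard j).card : ℕ) : ℝ) *
            ((M - j).choose (k - j) : ℝ) := by exact_mod_cast h4.trans h5
        _ ≤ (C₂ * (X j) ^ ε) * ((M - j).choose (k - j) : ℝ) := by
            refine mul_le_mul_of_nonneg_right ?_ (by positivity)
            refine le_trans ?_ h7
            exact_mod_cast h6
        _ = _ := by ring
    have h4 : ((U j).card : ℝ) ≤ ((hfin j).toFinset.card : ℝ) *
        (C₂ * (X j) ^ ε * ((M - j).choose (k - j) : ℝ)) := by
      have h5 : (U j).card ≤ ∑ F ∈ (hfin j).toFinset,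
        (((F ∩ P).powersetCard j).biUnion (fun T =>
          (P.powersetCard k).filter (fun S => T ⊆ S))).card := card_biUnion_le
      have h6 : ((U j).card : ℝ) ≤ ∑ F ∈ (hfin j).toFinset,
        ((((F ∩ P).powersetCard j).biUnion (fun T =>
          (P.powersetCard k).filter (fun S => T ⊆ S))).card : ℝ) := by exact_mod_cast h5
      refine (h6.trans (sum_le_sum h3)).trans ?_
      rw [sum_const, nsmul_eq_mul]
    have h5 : ((hfin j).toFinset.card : ℝ) ≤ C₁ * (X j) ^ σ := by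
      refine h1 _ hXj _ fun F hF => ?_
      rw [Set.Finite.mem_toFinset] at hF
      exact hF
    have h6 : ((M - j).choose (k - j) : ℝ) ≤ (M.choose k : ℝ) * ((k : ℝ) / M) ^ j := by
      rw [div_pow, ← mul_div_assoc, le_div_iff₀ (by positivity)]
      exact_mod_cast choose_ratio hMk j hj.2
    have h7 : (X j) ^ σ * (X j) ^ ε = (Y * P₀) ^ a * (N ^ a) ^ j := by
      rw [← Real.rpow_add hXj0, ← ha]
      change (P₀ * N ^ j * Y) ^ a = _
      rw [show (P₀ * N ^ j * Y) = (Y * P₀) * N ^ j by ring,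
        Real.mul_rpow (by positivity) (by positivity), ← Real.rpow_natCast, ← Real.rpow_natCast,
        ← Real.rpow_mul (by positivity), ← Real.rpow_mul (by positivity), mul_comm (j : ℝ) a]
    calc ((U j).card : ℝ) ≤ ((hfin j).toFinset.card : ℝ) *
        (C₂ * (X j) ^ ε * ((M - j).choose (k - j) : ℝ)) := h4
      _ ≤ (C₁ * (X j) ^ σ) *
        (C₂ * (X j) ^ ε * ((M.choose k : ℝ) * ((k : ℝ) / M) ^ j)) := by gcongr
      _ = C₁ * C₂ * ((X j) ^ σ * (X j) ^ ε) * (M.choose k : ℝ) *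
          ((k : ℝ) / M) ^ j := by ring
      _ = C₁ * C₂ * ((Y * P₀) ^ a * (N ^ a) ^ j) * (M.choose k : ℝ) *
          ((k : ℝ) / M) ^ j := by rw [h7]
      _ = C₁ * C₂ * (Y * P₀) ^ a * (M.choose k : ℝ) * ((N ^ a) ^ j * ((k : ℝ) / M) ^ j) := by
          ring
      _ = _ := by
          rw [← mul_pow, hq]
          congr 2
          ring
  have h8 : (((P.powersetCard k).filter (fun S => BadF w 𝓕 S₀ S Y)).card : ℝ) ≤
      C₁ * C₂ * (Y * P₀) ^ a * (M.choose k : ℝ) * (2 * q) := by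
    have h9 : ((P.powersetCard k).filter (fun S => BadF w 𝓕 S₀ S Y)).card ≤
        ∑ j ∈ Icc 1 k, (U j).card := (card_le_card hcov).trans card_biUnion_le
    have h10 : (((P.powersetCard k).filter (fun S => BadF w 𝓕 S₀ S Y)).card : ℝ) ≤
        ∑ j ∈ Icc 1 k, ((U j).card : ℝ) := by exact_mod_cast h9
    refine (h10.trans (sum_le_sum hU)).trans ?_
    rw [← mul_sum]
    exact mul_le_mul_of_nonneg_left (geom hq0 hq2 k) (by positivity)
  calc _ ≤ (C₁ * C₂ * (Y * P₀) ^ a * (M.choose k : ℝ) * (2 * q)) * M :=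
        mul_le_mul_of_nonneg_right h8 hMr.le
    _ = 2 * (C₁ * C₂) * k * (N ^ a * (Y * P₀) ^ a) * (M.choose k : ℝ) := by
        rw [hq]
        field_simp
    _ ≤ _ := by
        rw [hW]
        gcongr
        linarith

end Pool.Agent.X61.RS
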