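import Pool.Agent.X61.RS.Base
import Pool.Agent.Y911.AA.Main

/-! abc triples composed, up to a small radical, of the primes of a random set. -/

set_option autoImplicit false

namespace Pool.Agent.X61.RS

open Finset Filter Topology
open Pool.Agent.Results.MP_1ea25c_nt.AlmostAllTriples (triples rad3 radical)

theorem triples_mono {X Y : ℝ} (h : X ≤ Y) : triples X ⊆ triples Y :=
  fun _ ht => ⟨ht.1, ht.2.1, ht.2.2.1, ht.2.2.2.trans h⟩

/-- the number of all triples is at most `C X ^ (2/3)` -/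
theorem card_triples : ∃ C : ℝ, 0 < C ∧ ∀ X : ℝ, 1 ≤ X →
    ((triples X).ncard : ℝ) ≤ C * X ^ ((2 : ℝ) / 3) := by
  obtain ⟨κ, hκ, h, -⟩ := Pool.Agent.Y911.AA.main
  have hfin := Pool.Agent.Y911.AA.triples_finite'
  have h1 := h.eventually (gt_mem_nhds (show κ < κ + 1 by linarith))
  obtain ⟨X₀, hX₀⟩ := eventually_atTop.1 h1
  refine ⟨max (κ + 1) ((triples (max X₀ 1)).ncard + 1), lt_max_of_lt_right (by positivity),
    fun X hX => ?_⟩
  have hX0 : 0 < X := by linarith
  have hXp : 0 < X ^ ((2 : ℝ) / 3) := by positivity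
  rcases le_or_gt X₀ X with h2 | h2
  · have h3 := hX₀ X h2
    rw [div_lt_iff₀ hXp] at h3
    refine h3.le.trans ?_
    exact mul_le_mul_of_nonneg_right (le_max_left _ _) hXp.le
  · have h3 : ((triples X).ncard : ℝ) ≤ ((triples (max X₀ 1)).ncard : ℝ) := by
      exact_mod_cast Set.ncard_le_ncard (triples_mono (h2.le.trans (le_max_left _ _))) (hfin _)
    have h4 : (1 : ℝ) ≤ X ^ ((2 : ℝ) / 3) := Real.one_le_rpow hX (by norm_num)
    have h5 : 0 ≤ max (κ + 1) (((triples (max X₀ 1)).ncard : ℝ) + 1) :=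
      le_max_of_le_right (by positivity)
    calc ((triples X).ncard : ℝ) ≤ max (κ + 1) ((triples (max X₀ 1)).ncard + 1) * 1 := by
          rw [mul_one]
          refine h3.trans (le_trans ?_ (le_max_right _ _))
          linarith
      _ ≤ _ := mul_le_mul_of_nonneg_left h4 h5

/-- `n = a b c` -/
def nn (t : ℕ × ℕ) : ℕ := t.1 * t.2 * (t.1 + t.2)

/-- there is a coprime triple `a + b = c`, divisible by a prime of `S`, such that the product of the
primes outside `S₀ ∪ S` dividing it is at most `Y` -/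
def Bad (S₀ S : Finset ℕ) (Y : ℝ) : Prop :=
  ∃ t : ℕ × ℕ, 0 < t.1 ∧ t.1 ≤ t.2 ∧ Nat.Coprime t.1 t.2 ∧
    ((∏ p ∈ (nn t).primeFactors.filter (fun p => p ∉ S₀ ∧ p ∉ S), p : ℕ) : ℝ) ≤ Y ∧
    ∃ p ∈ S, p ∣ nn t

theorem rad_split {S₀ S P : Finset ℕ} (hP : ∀ p ∈ P, p.Prime ∧ p ∉ S₀) (h₀ : ∀ p ∈ S₀, p.Prime)
    (hS : S ⊆ P) (n : ℕ) :
    ∏ p ∈ n.primeFactors, p ≤ (∏ p ∈ n.primeFactors.filter (fun p => p ∉ S₀ ∧ p ∉ S), p) *
      ((∏ p ∈ S₀, p) * ∏ p ∈ S ∩ n.primeFactors, p) := by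
  rw [← prod_filter_mul_prod_filter_not n.primeFactors (fun p => p ∉ S₀ ∧ p ∉ S)]
  refine Nat.mul_le_mul_left _ ?_
  have hdis : Disjoint S₀ (S ∩ n.primeFactors) := by
    rw [Finset.disjoint_left]
    intro p hp hp'
    exact (hP p (hS (mem_inter.1 hp').1)).2 hp
  rw [← prod_union hdis]
  refine Nat.le_of_dvd (prod_pos fun p hp => ?_) (prod_dvd_prod_of_subset _ _ _ ?_)
  · rcases mem_union.1 hp with h | h
    · exact (h₀ p h).pos
    · exact (hP p (hS (mem_inter.1 h).1)).1.pos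
  · intro p hp
    rw [mem_filter] at hp
    rw [mem_union, mem_inter]
    tauto

open Classical in
theorem bad_count {ε : ℝ} (hε : 0 < ε) : ∃ C : ℝ, 0 < C ∧ ∀ (S₀ P : Finset ℕ) (N k : ℕ) (Y : ℝ),
    (∀ p ∈ S₀, p.Prime) → (∀ p ∈ P, p.Prime ∧ p ≤ N ∧ p ∉ S₀) → 1 ≤ Y →
      (((P.powersetCard k).filter (fun S => Bad S₀ S Y)).card : ℝ) * P.card ≤
        C * k * ((N : ℝ) * Y * ((∏ p ∈ S₀, p : ℕ) : ℝ)) ^ (2 / 3 + ε) * P.card.choose k := by
  obtain ⟨C₁, hC₁, ht⟩ := card_triples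
  obtain ⟨C₂, hC₂, h2⟩ := two_pow_card hε
  refine ⟨2 * (C₁ * C₂) + 2, by positivity, fun S₀ P N k Y h₀ hP hY => ?_⟩
  set M : ℕ := P.card with hM
  set P₀ : ℕ := ∏ p ∈ S₀, p with hP₀
  have hP₀1 : 1 ≤ P₀ := Nat.one_le_iff_ne_zero.2 (prod_ne_zero_iff.2 fun p hp => (h₀ p hp).ne_zero)
  have hP₀r : (1 : ℝ) ≤ P₀ := by exact_mod_cast hP₀1
  have hfin := Pool.Agent.Y911.AA.triples_finite'
  have hR0 : 0 ≤ (2 * (C₁ * C₂) + 2) * k * ((N : ℝ) * Y * (P₀ : ℝ)) ^ (2 / 3 + ε) *
      M.choose k := by positivity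
  rcases Nat.eq_zero_or_pos k with hk0 | hk0
  · -- no bad sets
    subst hk0
    have : (P.powersetCard 0).filter (fun S => Bad S₀ S Y) = ∅ := by
      rw [filter_eq_empty_iff]
      intro S hS hB
      rw [mem_powersetCard, card_eq_zero] at hS
      obtain ⟨t, -, -, -, -, p, hp, -⟩ := hB
      rw [hS.2] at hp
      exact absurd hp (notMem_empty p)
    rw [this, card_empty, Nat.cast_zero, zero_mul]
    simpa using hR0
  rcases lt_or_ge M k with hMk | hMk
  · rw [powersetCard_eq_empty.2 hMk, filter_empty, card_empty, Nat.cast_zero, zero_mul]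
    exact hR0
  have hM0 : 0 < M := by omega
  have hMr : (0 : ℝ) < M := by exact_mod_cast hM0
  obtain ⟨p₀, hp₀⟩ : P.Nonempty := by rw [← card_pos]; exact hM0
  have hN1 : 1 ≤ N := (hP p₀ hp₀).1.one_le.trans (hP p₀ hp₀).2.1
  have hNr : (1 : ℝ) ≤ N := by exact_mod_cast hN1
  set a : ℝ := 2 / 3 + ε with ha
  have ha0 : 0 < a := by positivity
  set q : ℝ := (N : ℝ) ^ a * k / M with hq
  have hq0 : 0 ≤ q := by positivity
  have hW : ((N : ℝ) * Y * (P₀ : ℝ)) ^ a = (N : ℝ) ^ a * (Y * P₀) ^ a := by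
    rw [mul_assoc, Real.mul_rpow (by positivity) (by positivity)]
  have hYP : 1 ≤ (Y * P₀) ^ a := Real.one_le_rpow (by nlinarith) ha0.le
  rcases lt_or_ge (1 / 2) q with hq2 | hq2
  · -- trivial
    have h3 : (((P.powersetCard k).filter (fun S => Bad S₀ S Y)).card : ℝ) ≤ M.choose k := by
      have : ((P.powersetCard k).filter (fun S => Bad S₀ S Y)).card ≤ M.choose k := by
        rw [← card_powersetCard]
        exact card_filter_le _ _
      exact_mod_cast this
    have h4 : (M : ℝ) ≤ 2 * k * (N : ℝ) ^ a := by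
      rw [hq, lt_div_iff₀ hMr] at hq2
      linarith
    rw [hW]
    calc _ ≤ (M.choose k : ℝ) * (2 * k * (N : ℝ) ^ a) :=
          mul_le_mul h3 h4 hMr.le (by positivity)
      _ = 2 * k * ((N : ℝ) ^ a * 1) * M.choose k := by ring
      _ ≤ (2 * (C₁ * C₂) + 2) * k * ((N : ℝ) ^ a * (Y * P₀) ^ a) * M.choose k := by
          gcongr
          have : 0 < C₁ * C₂ := by positivity
          linarith
  -- the main case
  let X : ℕ → ℝ := fun j => P₀ * (N : ℝ) ^ j * Y
  have hX1 : ∀ j, 1 ≤ X j := by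
    intro j
    have h3 : (1 : ℝ) ≤ (N : ℝ) ^ j := one_le_pow₀ hNr
    have h4 : (1 : ℝ) ≤ P₀ * (N : ℝ) ^ j := by nlinarith
    change 1 ≤ P₀ * (N : ℝ) ^ j * Y
    nlinarith
  let U : ℕ → Finset (Finset ℕ) := fun j => (hfin (X j)).toFinset.biUnion (fun t =>
    ((nn t).primeFactors ∩ P |>.powersetCard j).biUnion (fun T =>
      (P.powersetCard k).filter (fun S => T ⊆ S)))
  have hcov : (P.powersetCard k).filter (fun S => Bad S₀ S Y) ⊆ (Icc 1 k).biUnion U := by
    intro S hS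
    rw [mem_filter, mem_powersetCard] at hS
    obtain ⟨⟨hSP, hSk⟩, t, ht1, ht2, ht3, ht4, p, hp, hpn⟩ := hS
    have hn0 : nn t ≠ 0 := by
      unfold nn
      have : 0 < t.2 := by omega
      positivity
    have hT0 : (S ∩ (nn t).primeFactors).Nonempty :=
      ⟨p, mem_inter.2 ⟨hp, Nat.mem_primeFactors.2 ⟨(hP p (hSP hp)).1, hpn, hn0⟩⟩⟩
    have hTk : (S ∩ (nn t).primeFactors).card ≤ k := by
      rw [← hSk]
      exact card_le_card inter_subset_left
    rw [mem_biUnion]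
    refine ⟨(S ∩ (nn t).primeFactors).card, mem_Icc.2 ⟨card_pos.2 hT0, hTk⟩, ?_⟩
    change S ∈ (hfin (X (S ∩ (nn t).primeFactors).card)).toFinset.biUnion _
    rw [mem_biUnion]
    refine ⟨t, ?_, ?_⟩
    · rw [Set.Finite.mem_toFinset]
      refine ⟨ht1, ht2, ht3, ?_⟩
      have h3 := rad_split (S₀ := S₀) (S := S) (P := P) (fun p hp => ⟨(hP p hp).1, (hP p hp).2.2⟩)
        h₀ hSP (nn t)
      have h4 : ∏ p ∈ S ∩ (nn t).primeFactors, p ≤ N ^ (S ∩ (nn t).primeFactors).card :=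
        prod_le_pow_card _ _ _ fun p hp => (hP p (hSP (mem_inter.1 hp).1)).2.1
      have h5 : ((∏ p ∈ (nn t).primeFactors, p : ℕ) : ℝ) ≤
          ((∏ p ∈ (nn t).primeFactors.filter (fun p => p ∉ S₀ ∧ p ∉ S), p : ℕ) : ℝ) *
          ((P₀ : ℝ) * ((∏ p ∈ S ∩ (nn t).primeFactors, p : ℕ) : ℝ)) := by
        exact_mod_cast h3
      have h6 : ((∏ p ∈ S ∩ (nn t).primeFactors, p : ℕ) : ℝ) ≤
          (N : ℝ) ^ (S ∩ (nn t).primeFactors).card := by exact_mod_cast h4
      calc (rad3 t : ℝ) = ((∏ p ∈ (nn t).primeFactors, p : ℕ) : ℝ) := rfl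
        _ ≤ Y * ((P₀ : ℝ) * (N : ℝ) ^ (S ∩ (nn t).primeFactors).card) := by
            refine h5.trans ?_
            gcongr
        _ = _ := by
            change _ = P₀ * (N : ℝ) ^ (S ∩ (nn t).primeFactors).card * Y
            ring
    · rw [mem_biUnion]
      refine ⟨S ∩ (nn t).primeFactors, ?_, ?_⟩
      · rw [mem_powersetCard]
        refine ⟨?_, rfl⟩
        intro x hx
        rw [mem_inter] at hx ⊢
        exact ⟨hx.2, hSP hx.1⟩
      · rw [mem_filter, mem_powersetCard]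
        exact ⟨⟨hSP, hSk⟩, inter_subset_left⟩
  -- the size of `U j`
  have hU : ∀ j ∈ Icc 1 k, ((U j).card : ℝ) ≤
      C₁ * C₂ * (Y * P₀) ^ a * (M.choose k : ℝ) * q ^ j := by
    intro j hj
    rw [mem_Icc] at hj
    have hXj := hX1 j
    have hXj0 : 0 < X j := by linarith
    have h3 : ∀ t ∈ (hfin (X j)).toFinset,
        ((((nn t).primeFactors ∩ P |>.powersetCard j).biUnion (fun T =>
          (P.powersetCard k).filter (fun S => T ⊆ S))).card : ℝ) ≤
        C₂ * (X j) ^ ε * ((M - j).choose (k - j) : ℝ) := by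
      intro t htt
      rw [Set.Finite.mem_toFinset] at htt
      have h4 : (((nn t).primeFactors ∩ P |>.powersetCard j).biUnion (fun T =>
          (P.powersetCard k).filter (fun S => T ⊆ S))).card ≤
          ∑ T ∈ ((nn t).primeFactors ∩ P |>.powersetCard j),
            ((P.powersetCard k).filter (fun S => T ⊆ S)).card := card_biUnion_le
      have h5 : ∑ T ∈ ((nn t).primeFactors ∩ P |>.powersetCard j),
            ((P.powersetCard k).filter (fun S => T ⊆ S)).card ≤
          ∑ T ∈ ((nn t).primeFactors ∩ P |>.powersetCard j), (M - j).choose (k - j) := by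
        refine sum_le_sum fun T hT => ?_
        rw [mem_powersetCard] at hT
        have := card_supersets P T (hT.1.trans inter_subset_right) k
        rw [hT.2] at this
        exact this
      rw [sum_const, smul_eq_mul] at h5
      have h6 : ((nn t).primeFactors ∩ P |>.powersetCard j).card ≤ 2 ^ (nn t).primeFactors.card := by
        calc _ ≤ ((nn t).primeFactors ∩ P).powerset.card :=
              card_le_card (fun T hT => mem_powerset.2 (mem_powersetCard.1 hT).1)
          _ = 2 ^ ((nn t).primeFactors ∩ P).card := card_powerset _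
          _ ≤ _ := Nat.pow_le_pow_right (by norm_num) (card_le_card inter_subset_left)
      have h7 : (2 : ℝ) ^ (nn t).primeFactors.card ≤ C₂ * (X j) ^ ε := by
        refine (h2 _ fun p hp => Nat.prime_of_mem_primeFactors hp).trans ?_
        refine mul_le_mul_of_nonneg_left ?_ (by positivity)
        exact Real.rpow_le_rpow (Nat.cast_nonneg _) htt.2.2.2 hε.le
      calc _ ≤ (((nn t).primeFactors ∩ P |>.powersetCard j).card : ℝ) *
            ((M - j).choose (k - j) : ℝ) := by exact_mod_cast h4.trans h5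
        _ ≤ (C₂ * (X j) ^ ε) * ((M - j).choose (k - j) : ℝ) := by
            refine mul_le_mul_of_nonneg_right ?_ (by positivity)
            refine le_trans ?_ h7
            exact_mod_cast h6
        _ = _ := by ring
    have h4 : ((U j).card : ℝ) ≤ ((hfin (X j)).toFinset.card : ℝ) *
        (C₂ * (X j) ^ ε * ((M - j).choose (k - j) : ℝ)) := by
      have h5 : (U j).card ≤ ∑ t ∈ (hfin (X j)).toFinset,
        (((nn t).primeFactors ∩ P |>.powersetCard j).biUnion (fun T =>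
          (P.powersetCard k).filter (fun S => T ⊆ S))).card := card_biUnion_le
      have h6 : ((U j).card : ℝ) ≤ ∑ t ∈ (hfin (X j)).toFinset,
        ((((nn t).primeFactors ∩ P |>.powersetCard j).biUnion (fun T =>
          (P.powersetCard k).filter (fun S => T ⊆ S))).card : ℝ) := by exact_mod_cast h5
      refine (h6.trans (sum_le_sum h3)).trans ?_
      rw [sum_const, nsmul_eq_mul]
    have h5 : ((hfin (X j)).toFinset.card : ℝ) ≤ C₁ * (X j) ^ ((2 : ℝ) / 3) := by
      rw [← Set.ncard_eq_toFinset_card _ (hfin (X j))]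
      exact ht _ hXj
    have h6 : ((M - j).choose (k - j) : ℝ) ≤ (M.choose k : ℝ) * ((k : ℝ) / M) ^ j := by
      rw [div_pow, ← mul_div_assoc, le_div_iff₀ (by positivity)]
      exact_mod_cast choose_ratio hMk j hj.2
    have h7 : (X j) ^ ((2 : ℝ) / 3) * (X j) ^ ε = (Y * P₀) ^ a * ((N : ℝ) ^ a) ^ j := by
      rw [← Real.rpow_add hXj0, ← ha]
      change (P₀ * (N : ℝ) ^ j * Y) ^ a = _
      rw [show (P₀ * (N : ℝ) ^ j * Y) = (Y * P₀) * (N : ℝ) ^ j by ring,
        Real.mul_rpow (by positivity) (by positivity), ← Real.rpow_natCast, ← Real.rpow_natCast,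
        ← Real.rpow_mul (by positivity), ← Real.rpow_mul (by positivity), mul_comm (j : ℝ) a]
    calc ((U j).card : ℝ) ≤ ((hfin (X j)).toFinset.card : ℝ) *
        (C₂ * (X j) ^ ε * ((M - j).choose (k - j) : ℝ)) := h4
      _ ≤ (C₁ * (X j) ^ ((2 : ℝ) / 3)) *
        (C₂ * (X j) ^ ε * ((M.choose k : ℝ) * ((k : ℝ) / M) ^ j)) := by gcongr
      _ = C₁ * C₂ * ((X j) ^ ((2 : ℝ) / 3) * (X j) ^ ε) * (M.choose k : ℝ) *
          ((k : ℝ) / M) ^ j := by ring
      _ = C₁ * C₂ * ((Y * P₀) ^ a * ((N : ℝ) ^ a) ^ j) * (M.choose k : ℝ) *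
          ((k : ℝ) / M) ^ j := by rw [h7]
      _ = C₁ * C₂ * (Y * P₀) ^ a * (M.choose k : ℝ) * (((N : ℝ) ^ a) ^ j * ((k : ℝ) / M) ^ j) := by
          ring
      _ = _ := by
          rw [← mul_pow, hq]
          congr 2
          ring
  have h8 : (((P.powersetCard k).filter (fun S => Bad S₀ S Y)).card : ℝ) ≤
      C₁ * C₂ * (Y * P₀) ^ a * (M.choose k : ℝ) * (2 * q) := by
    have h9 : ((P.powersetCard k).filter (fun S => Bad S₀ S Y)).card ≤ ∑ j ∈ Icc 1 k, (U j).card :=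
      (card_le_card hcov).trans card_biUnion_le
    have h10 : (((P.powersetCard k).filter (fun S => Bad S₀ S Y)).card : ℝ) ≤
        ∑ j ∈ Icc 1 k, ((U j).card : ℝ) := by exact_mod_cast h9
    refine (h10.trans (sum_le_sum hU)).trans ?_
    rw [← mul_sum]
    exact mul_le_mul_of_nonneg_left (geom hq0 hq2 k) (by positivity)
  calc _ ≤ (C₁ * C₂ * (Y * P₀) ^ a * (M.choose k : ℝ) * (2 * q)) * M :=
        mul_le_mul_of_nonneg_right h8 hMr.le
    _ = 2 * (C₁ * C₂) * k * ((N : ℝ) ^ a * (Y * P₀) ^ a) * (M.choose k : ℝ) := by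
        rw [hq]
        field_simp
    _ ≤ _ := by
        rw [hW]
        gcongr
        linarith

end Pool.Agent.X61.RS
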