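import Pool.Agent.X61.RS.Fam
import Pool.Agent.Results.MP_6e34ef_nt.AllDegreesAlmostAll

/-! Random sets of prime ideals, uniformly in all number fields. -/

set_option autoImplicit false

namespace Pool.Agent.X61.RS.NF

open NumberField IsDedekindDomain Finset
open Pool.Agent.Results.MP_6e34ef_nt.AllDegreesAlmostAll (logN logH N H Pts)

/-- the support of the point `(a 0 : a 1 : a 2)` -/
def supp {K : Type} [Field K] [NumberField K] (a : Fin 3 → K) : Set (HeightOneSpectrum (𝓞 K)) :=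
  {v | ¬ (FinitePlace.mk v (a 0) = FinitePlace.mk v (a 1) ∧
      FinitePlace.mk v (a 1) = FinitePlace.mk v (a 2))}

section
variable {K : Type} [Field K] [NumberField K]

theorem place_fin {x : K} (hx : x ≠ 0) :
    {v : HeightOneSpectrum (𝓞 K) | FinitePlace.mk v x ≠ 1}.Finite := by
  have h := FinitePlace.hasFiniteMulSupport hx
  have h1 : (Function.mulSupport fun w : FinitePlace K => w x).Finite := h
  refine Set.Finite.of_finite_image (f := FinitePlace.mk) (h1.subset ?_) ?_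
  · rintro _ ⟨v, hv, rfl⟩
    exact hv
  · intro v _ v' _ h
    exact FinitePlace.mk_eq_iff.1 h

theorem supp_fin {x : K} (h0 : x ≠ 0) (h1 : x ≠ 1) : (supp ![x, 1 - x, -1]).Finite := by
  refine ((place_fin h0).union (place_fin (sub_ne_zero.2 h1.symm))).subset fun v hv => ?_
  by_contra hc
  rw [Set.mem_union, not_or] at hc
  obtain ⟨h2, h3⟩ := hc
  rw [Set.mem_setOf_eq, not_not] at h2 h3
  refine hv ⟨?_, ?_⟩
  · change FinitePlace.mk v x = FinitePlace.mk v (1 - x)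
    rw [h2, h3]
  · change FinitePlace.mk v (1 - x) = FinitePlace.mk v (-1)
    rw [h3, map_neg_eq_map, map_one]

/-- the support as a finite set -/
noncomputable def fsupp {x : K} (h0 : x ≠ 0) (h1 : x ≠ 1) : Finset (HeightOneSpectrum (𝓞 K)) :=
  (supp_fin h0 h1).toFinset

theorem nm_pos (v : HeightOneSpectrum (𝓞 K)) : (1 : ℝ) ≤ Ideal.absNorm v.asIdeal := by
  have : Ideal.absNorm v.asIdeal ≠ 0 := by
    rw [Ne, Ideal.absNorm_eq_zero_iff]
    exact v.ne_bot
  exact_mod_cast Nat.one_le_iff_ne_zero.2 this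

theorem fin_pos : (0 : ℝ) < Module.finrank ℚ K := by
  exact_mod_cast Module.finrank_pos

theorem logN_eq {x : K} (h0 : x ≠ 0) (h1 : x ≠ 1) : logN ![x, 1 - x, -1] =
    (∑ v ∈ fsupp h0 h1, Real.log (Ideal.absNorm v.asIdeal : ℝ)) / Module.finrank ℚ K := by
  unfold logN
  congr 1
  exact finsum_mem_eq_finite_toFinset_sum _ (supp_fin h0 h1)

theorem N_le {x : K} (h0 : x ≠ 0) (h1 : x ≠ 1) {X : ℝ} (hX : 1 ≤ X)
    (h : ∏ v ∈ fsupp h0 h1, (Ideal.absNorm v.asIdeal : ℝ) ≤ X) :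
    N x ≤ X ^ (1 / (Module.finrank ℚ K : ℝ)) := by
  have hn := fin_pos (K := K)
  unfold N
  rw [logN_eq h0 h1, ← Real.log_prod (fun v _ => by linarith [nm_pos v])]
  rw [Real.rpow_def_of_pos (by linarith)]
  refine Real.exp_le_exp.2 ?_
  rw [mul_one_div]
  refine div_le_div_of_nonneg_right (Real.log_le_log ?_ h) hn.le
  exact prod_pos fun v _ => by linarith [nm_pos v]

end

/-- `2 ^ |F|` is small, uniformly in all number fields -/
theorem two_pow_K {ε : ℝ} (hε : 0 < ε) : ∃ C : ℝ, 1 ≤ C ∧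
    ∀ (K : Type) [Field K] [NumberField K] (F : Finset (HeightOneSpectrum (𝓞 K))),
      (2 : ℝ) ^ F.card ≤ C ^ Module.finrank ℚ K *
        (∏ v ∈ F, (Ideal.absNorm v.asIdeal : ℝ)) ^ ε := by
  classical
  obtain ⟨G, hG0, hG⟩ := Pool.Agent.Y733.UD.primes_sum 2 (by norm_num)
  set B : ℝ := (2 : ℝ) ^ (1 / ε) with hB
  have hB0 : 0 < B := by positivity
  have hl2 : 0 < Real.log 2 := Real.log_pos (by norm_num)
  refine ⟨Real.exp (Real.log 2 * (B ^ 2 * G)), Real.one_le_exp (by positivity), fun K _ _ F => ?_⟩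
  set n := Module.finrank ℚ K with hn
  have h2 : (∏ v ∈ F, (Ideal.absNorm v.asIdeal : ℝ)) ^ ε =
      ∏ v ∈ F, (Ideal.absNorm v.asIdeal : ℝ) ^ ε := by
    rw [Real.finsetProd_rpow _ _ (fun v _ => by linarith [nm_pos v])]
  have h1 : (2 : ℝ) ^ F.card = ∏ _v ∈ F, (2 : ℝ) := by rw [prod_const]
  rw [h1, h2, ← prod_filter_mul_prod_filter_not F
    (fun v => (Ideal.absNorm v.asIdeal : ℝ) < B) (fun _ => (2 : ℝ))]
  have h3 : ∏ _v ∈ F.filter (fun v => (Ideal.absNorm v.asIdeal : ℝ) < B), (2 : ℝ) ≤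
      (Real.exp (Real.log 2 * (B ^ 2 * G))) ^ n := by
    rw [prod_const, ← Real.exp_nat_mul, ← Real.exp_log (show (0 : ℝ) < 2 by norm_num),
      ← Real.exp_nat_mul, Real.exp_log (show (0 : ℝ) < 2 by norm_num)]
    refine Real.exp_le_exp.2 ?_
    have h4 : ((F.filter (fun v => (Ideal.absNorm v.asIdeal : ℝ) < B)).card : ℝ) ≤
        B ^ 2 * (n * G) := by
      have h5 := hG K (F.filter (fun v => (Ideal.absNorm v.asIdeal : ℝ) < B))
      have h6 : ((F.filter (fun v => (Ideal.absNorm v.asIdeal : ℝ) < B)).card : ℝ) ≤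
          ∑ v ∈ F.filter (fun v => (Ideal.absNorm v.asIdeal : ℝ) < B),
            B ^ 2 * (Pool.Agent.H691R3.nm v : ℝ) ^ (-2 : ℝ) := by
        rw [card_eq_sum_ones, Nat.cast_sum]
        refine sum_le_sum fun v hv => ?_
        rw [mem_filter] at hv
        have h7 : (0 : ℝ) < (Pool.Agent.H691R3.nm v : ℝ) := by
          have := nm_pos v
          unfold Pool.Agent.H691R3.nm
          linarith
        have h8 : (Pool.Agent.H691R3.nm v : ℝ) ≤ B := hv.2.le
        rw [Real.rpow_neg h7.le, Real.rpow_two, ← div_eq_mul_inv, Nat.cast_one,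
          one_le_div (by positivity)]
        exact pow_le_pow_left₀ h7.le h8 2
      rw [← mul_sum] at h6
      exact h6.trans (mul_le_mul_of_nonneg_left h5 (by positivity))
    calc _ ≤ B ^ 2 * (n * G) * Real.log 2 := mul_le_mul_of_nonneg_right h4 hl2.le
      _ = _ := by ring
  have h4 : ∏ _v ∈ F.filter (fun v => ¬ (Ideal.absNorm v.asIdeal : ℝ) < B), (2 : ℝ) ≤
      ∏ v ∈ F, (Ideal.absNorm v.asIdeal : ℝ) ^ ε := by
    calc ∏ _v ∈ F.filter (fun v => ¬ (Ideal.absNorm v.asIdeal : ℝ) < B), (2 : ℝ)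
        ≤ ∏ v ∈ F.filter (fun v => ¬ (Ideal.absNorm v.asIdeal : ℝ) < B),
            (Ideal.absNorm v.asIdeal : ℝ) ^ ε := by
          refine prod_le_prod (fun _ _ => by norm_num) fun v hv => ?_
          rw [mem_filter, not_lt] at hv
          calc (2 : ℝ) = B ^ ε := by
                rw [hB, ← Real.rpow_mul (by norm_num), one_div_mul_cancel hε.ne', Real.rpow_one]
            _ ≤ _ := Real.rpow_le_rpow hB0.le hv.2 hε.le
      _ ≤ _ := prod_mono _ (fun v => Real.one_le_rpow (nm_pos v) hε.le) (filter_subset _ _)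
  exact mul_le_mul h3 h4 (prod_nonneg fun _ _ => by norm_num) (by positivity)

/-- there is a point of height at most `B` whose support meets `T` and for which the product of the
norms of the primes outside `S₀ ∪ T` in the support is at most `Y` -/
def Bad {K : Type} [Field K] [NumberField K] (S₀ T : Finset (HeightOneSpectrum (𝓞 K)))
    (B Y : ℝ) : Prop :=
  ∃ x ∈ Pts K B, (∃ v ∈ T, v ∈ supp ![x, 1 - x, -1]) ∧
    ∏ᶠ (v : HeightOneSpectrum (𝓞 K)) (_ : v ∈ supp ![x, 1 - x, -1] ∧ v ∉ S₀ ∧ v ∉ T),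
      (Ideal.absNorm v.asIdeal : ℝ) ≤ Y

open Classical in
theorem bad_count {ε : ℝ} (hε : 0 < ε) : ∃ C : ℝ, 1 ≤ C ∧
    ∀ (K : Type) [Field K] [NumberField K] (S₀ P : Finset (HeightOneSpectrum (𝓞 K)))
      (R Y B : ℝ) (k : ℕ), (∀ v ∈ P, v ∉ S₀ ∧ (Ideal.absNorm v.asIdeal : ℝ) ≤ R) → 1 ≤ B → 1 ≤ Y →
      (((P.powersetCard k).filter (fun T => Bad S₀ T B Y)).card : ℝ) * P.card ≤
        (C * B ^ ε) ^ Module.finrank ℚ K * k *
          (R * Y * ∏ v ∈ S₀, (Ideal.absNorm v.asIdeal : ℝ)) ^ (2 / 3 + ε) * P.card.choose k := by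
  obtain ⟨C₁, hC₁, h1⟩ :=
    (Pool.Agent.Results.MP_6e34ef_nt.AllDegreesAlmostAll.result.2.2.2.2.1 ε hε)
  obtain ⟨C₂, hC₂, h2⟩ := two_pow_K hε
  refine ⟨4 * (max C₁ 1 * C₂), ?_, fun K _ _ S₀ P R Y B k hP hB hY => ?_⟩
  · have h3 : (1 : ℝ) ≤ max C₁ 1 := le_max_right _ _
    nlinarith
  set n := Module.finrank ℚ K with hn
  have hn0 : (0 : ℝ) < n := fin_pos
  have hn1 : n ≠ 0 := by
    intro h
    rw [h] at hn0
    simp at hn0
  have hB0 : 0 < B := by linarith
  have hBε : 1 ≤ B ^ ε := Real.one_le_rpow hB hε.le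
  have hm1 : (1 : ℝ) ≤ max C₁ 1 := le_max_right _ _
  set D₁ : ℝ := (max C₁ 1 * B ^ ε) ^ n with hD₁
  have hD₁1 : 1 ≤ D₁ := one_le_pow₀ (by nlinarith)
  set D₂ : ℝ := C₂ ^ n with hD₂
  have hD₂1 : 1 ≤ D₂ := one_le_pow₀ hC₂
  let 𝓕 : Set (Finset (HeightOneSpectrum (𝓞 K))) :=
    {F | ∃ x ∈ Pts K B, (F : Set (HeightOneSpectrum (𝓞 K))) = supp ![x, 1 - x, -1]}
  have hfam := fam_count (fun v : HeightOneSpectrum (𝓞 K) => (Ideal.absNorm v.asIdeal : ℝ)) nm_pos 𝓕
    (C₁ := D₁) (C₂ := D₂) (σ := 2 / 3) (ε := ε) (by linarith) (by linarith) (by norm_num) hε.le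
    (by
      intro X hX G hG
      -- choose the points
      have hch : ∀ F ∈ G, ∃ x ∈ Pts K B, (F : Set (HeightOneSpectrum (𝓞 K))) = supp ![x, 1 - x, -1] :=
        fun F hF => (hG F hF).1
      choose! g hg1 hg2 using hch
      have hX0 : 0 < X := by linarith
      obtain ⟨hf, hc⟩ := h1 K B (X ^ (1 / (n : ℝ))) hB (Real.one_le_rpow hX (by positivity))
      have h3 : (G.card : ℝ) ≤
          ({x ∈ Pts K B | N x ≤ X ^ (1 / (n : ℝ))}.ncard : ℝ) := by
        have h4 : G.card = (G.image g).card := by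
          rw [card_image_of_injOn]
          intro F hF F' hF' h
          have h5 := hg2 F hF
          rw [h, ← hg2 F' hF'] at h5
          exact_mod_cast h5
        rw [h4, ← Set.ncard_coe_finset]
        have h6 : ((G.image g : Finset K) : Set K) ⊆ {x ∈ Pts K B | N x ≤ X ^ (1 / (n : ℝ))} := by
          intro x hx
          rw [mem_coe, mem_image] at hx
          obtain ⟨F, hF, rfl⟩ := hx
          refine ⟨hg1 F hF, ?_⟩
          obtain ⟨h0, h1', -⟩ := hg1 F hF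
          refine N_le h0 h1' hX ?_
          have h7 : fsupp h0 h1' = F := by
            apply Finset.coe_injective
            rw [fsupp, Set.Finite.coe_toFinset]
            exact (hg2 F hF).symm
          rw [h7]
          exact (hG F hF).2
        exact_mod_cast Set.ncard_le_ncard h6 hf
      refine h3.trans (hc.trans ?_)
      have h8 : (C₁ * B ^ ε * (X ^ (1 / (n : ℝ))) ^ (2 / 3 : ℝ)) ^ n =
          (C₁ * B ^ ε) ^ n * X ^ (2 / 3 : ℝ) := by
        rw [mul_pow]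
        congr 1
        rw [← Real.rpow_mul hX0.le, ← Real.rpow_natCast, ← Real.rpow_mul hX0.le]
        congr 1
        field_simp
      rw [h8]
      refine mul_le_mul_of_nonneg_right ?_ (by positivity)
      refine pow_le_pow_left₀ (by positivity) ?_ n
      exact mul_le_mul_of_nonneg_right (le_max_left _ _) (by positivity))
    (h2 K) S₀ P (fun v hv => (hP v hv).1) R Y (fun v hv => (hP v hv).2) hY k
  have hsub : (P.powersetCard k).filter (fun T => Bad S₀ T B Y) ⊆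
      (P.powersetCard k).filter (fun T =>
        BadF (fun v : HeightOneSpectrum (𝓞 K) => (Ideal.absNorm v.asIdeal : ℝ)) 𝓕 S₀ T Y) := by
    intro T hT
    rw [mem_filter] at hT ⊢
    refine ⟨hT.1, ?_⟩
    obtain ⟨x, hx, ⟨v, hvT, hv⟩, hout⟩ := hT.2
    have h0 : x ≠ 0 := hx.1
    have h1' : x ≠ 1 := hx.2.1
    have hcoe : ((fsupp h0 h1' : Finset (HeightOneSpectrum (𝓞 K))) : Set (HeightOneSpectrum (𝓞 K))) =
        supp ![x, 1 - x, -1] := Set.Finite.coe_toFinset _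
    refine ⟨fsupp h0 h1', ⟨x, hx, hcoe⟩, ⟨v, hvT, ?_⟩, ?_⟩
    · rw [← mem_coe, hcoe]
      exact hv
    · refine le_trans (le_of_eq ?_) hout
      have h3 : {v : HeightOneSpectrum (𝓞 K) | v ∈ supp ![x, 1 - x, -1] ∧ v ∉ S₀ ∧ v ∉ T} =
          (((fsupp h0 h1').filter (fun i => i ∉ S₀ ∧ i ∉ T) : Finset (HeightOneSpectrum (𝓞 K))) :
            Set (HeightOneSpectrum (𝓞 K))) := by
        ext v
        have h5 : v ∈ fsupp h0 h1' ↔ v ∈ supp ![x, 1 - x, -1] := by rw [← mem_coe, hcoe]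
        rw [coe_filter, Set.mem_ofPred_eq, Set.mem_ofPred_eq, h5]
      have h4 := finprod_mem_coe_finset (fun v : HeightOneSpectrum (𝓞 K) =>
        (Ideal.absNorm v.asIdeal : ℝ)) ((fsupp h0 h1').filter (fun i => i ∉ S₀ ∧ i ∉ T))
      rw [← h4, ← h3]
      rfl
  have hcard : (((P.powersetCard k).filter (fun T => Bad S₀ T B Y)).card : ℝ) ≤
      (((P.powersetCard k).filter (fun T =>
        BadF (fun v : HeightOneSpectrum (𝓞 K) => (Ideal.absNorm v.asIdeal : ℝ)) 𝓕 S₀ T Y)).card : ℝ) := by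
    exact_mod_cast card_le_card hsub
  refine (mul_le_mul_of_nonneg_right hcard (Nat.cast_nonneg _)).trans (hfam.trans ?_)
  rcases Finset.eq_empty_or_nonempty P with hPe | ⟨v₀, hv₀⟩
  · subst hPe
    rcases Nat.eq_zero_or_pos k with hk | hk
    · subst hk
      simp
    · rw [card_empty, Nat.choose_eq_zero_of_lt hk]
      simp
  have hR : 1 ≤ R := (nm_pos v₀).trans (hP v₀ hv₀).2
  have hc : 2 * (D₁ * D₂) + 2 ≤ (4 * (max C₁ 1 * C₂) * B ^ ε) ^ n := by
    have h3 : (4 * (max C₁ 1 * C₂) * B ^ ε) ^ n = 4 ^ n * (D₁ * D₂) := by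
      rw [hD₁, hD₂, ← mul_pow, ← mul_pow]
      congr 1
      ring
    have h4 : (4 : ℝ) ≤ 4 ^ n := by
      calc (4 : ℝ) = 4 ^ 1 := by norm_num
        _ ≤ _ := pow_le_pow_right₀ (by norm_num) (Nat.one_le_iff_ne_zero.2 hn1)
    rw [h3]
    have h5 : 1 ≤ D₁ * D₂ := by nlinarith
    nlinarith
  have hprod : 0 ≤ ∏ v ∈ S₀, (Ideal.absNorm v.asIdeal : ℝ) := prod_nonneg fun v _ => by
    linarith [nm_pos v]
  have : 0 ≤ (R * Y * ∏ v ∈ S₀, (Ideal.absNorm v.asIdeal : ℝ)) ^ (2 / 3 + ε) := by positivity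
  gcongr

end Pool.Agent.X61.RS.NF
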