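import Pool.Agent.X61.RS.NF
import Pool.Agent.TH402.AK.Trip

/-! Random sets of prime ideals in a fixed number field, heights up to `exp L`. -/

set_option autoImplicit false

namespace Pool.Agent.X61.RS.NK

open NumberField IsDedekindDomain Finset Pool.Agent.TH876.Loc

variable (K : Type) [Field K] [NumberField K]

/-- the supports of the points of height at most `L` -/
def Fam (L : ℝ) : Set (Finset (HeightOneSpectrum (𝓞 K))) :=
  {F | ∃ x : K, Pt x ∧ hgt x ≤ L ∧ sp x = F}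

open Classical in
theorem K_count {ε : ℝ} (hε : 0 < ε) : ∃ C : ℝ, 0 < C ∧
    ∀ (S₀ P : Finset (HeightOneSpectrum (𝓞 K))) (N Y L : ℝ) (k : ℕ),
      (∀ v ∈ P, v ∉ S₀ ∧ (Ideal.absNorm v.asIdeal : ℝ) ≤ N) → 1 ≤ Y → 1 ≤ L →
      (((P.powersetCard k).filter (fun T => BadF (fun v : HeightOneSpectrum (𝓞 K) =>
        (Ideal.absNorm v.asIdeal : ℝ)) (Fam K L) S₀ T Y)).card : ℝ) * P.card ≤
        C * L * k * (N * Y * ∏ v ∈ S₀, (Ideal.absNorm v.asIdeal : ℝ)) ^ (2 / 3 + ε) *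
          P.card.choose k := by
  obtain ⟨C₁, hC₁, h1⟩ := Pool.Agent.TH876.KR.main_count K (ε / 2) (by positivity)
  obtain ⟨C₂, hC₂, h2⟩ := NF.two_pow_K (show 0 < ε / 2 by positivity)
  set D₂ : ℝ := C₂ ^ Module.finrank ℚ K with hD₂
  have hD₂1 : 1 ≤ D₂ := one_le_pow₀ hC₂
  refine ⟨2 * (C₁ * D₂) + 2, by positivity, fun S₀ P N Y L k hP hY hL => ?_⟩
  have hfam := fam_count (fun v : HeightOneSpectrum (𝓞 K) => (Ideal.absNorm v.asIdeal : ℝ)) NF.nm_pos
    (Fam K L) (C₁ := C₁ * L) (C₂ := D₂) (σ := 2 / 3 + ε / 2) (ε := ε / 2) (by positivity)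
    (by linarith) (by positivity) (by positivity)
    (by
      intro X hX G hG
      have hch : ∀ F ∈ G, ∃ x : K, Pt x ∧ hgt x ≤ L ∧ sp x = F := fun F hF => (hG F hF).1
      choose! g hg1 hg2 hg3 using hch
      have h4 : G.card = (G.image g).card := by
        rw [card_image_of_injOn]
        intro F hF F' hF' h
        rw [← hg3 F hF, ← hg3 F' hF', h]
      rw [h4]
      refine h1 X L hX hL _ fun x hx => ?_
      rw [mem_image] at hx
      obtain ⟨F, hF, rfl⟩ := hx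
      refine ⟨hg1 F hF, ?_, hg2 F hF⟩
      rw [hg3 F hF]
      exact (hG F hF).2)
    (h2 K) S₀ P (fun v hv => (hP v hv).1) N Y (fun v hv => (hP v hv).2) hY k
  refine hfam.trans ?_
  rcases Finset.eq_empty_or_nonempty P with hPe | ⟨v₀, hv₀⟩
  · subst hPe
    rcases Nat.eq_zero_or_pos k with hk | hk
    · subst hk
      simp
    · rw [card_empty, Nat.choose_eq_zero_of_lt hk]
      simp
  have hN : 1 ≤ N := (NF.nm_pos v₀).trans (hP v₀ hv₀).2
  have hprod : 0 ≤ ∏ v ∈ S₀, (Ideal.absNorm v.asIdeal : ℝ) := prod_nonneg fun v _ => by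
    linarith [NF.nm_pos v]
  have he : 2 / 3 + ε / 2 + ε / 2 = 2 / 3 + ε := by ring
  rw [he]
  have hc : 2 * (C₁ * L * D₂) + 2 ≤ (2 * (C₁ * D₂) + 2) * L := by nlinarith
  have : 0 ≤ (N * Y * ∏ v ∈ S₀, (Ideal.absNorm v.asIdeal : ℝ)) ^ (2 / 3 + ε) := by positivity
  gcongr

end Pool.Agent.X61.RS.NK
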