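import Pool.Agent.X61.RS.Zeros
import Pool.Agent.Y902.GN.Lp

/-! Linear relations between integers composed, up to small factors, of the primes of a random
set. -/

set_option autoImplicit false

namespace Pool.Agent.X61.RS

open Finset Pool.Agent.Y902.GN

/-- a relation without vanishing subsums between coprime integers composed, up to factors at most
`B`, of the primes `p₀ j` and `l j`, some `l j` occurring -/
structure Rel {n c k : ℕ} (u : Fin n → ℤ) (p₀ : Fin c → ℕ) (B : ℕ) (H : ℝ) (l : Fin k → ℕ)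
    (a s : Fin n → ℤ) : Prop where
  s1 : ∀ i, |s i| ≤ (B : ℤ)
  ha : ∀ i, a i = s i * ((∏ j, (p₀ j : ℤ) ^ (a i).natAbs.factorization (p₀ j)) *
    ∏ j, (l j : ℤ) ^ (a i).natAbs.factorization (l j))
  nz : ∀ i, a i ≠ 0
  gcd : ∀ d : ℕ, (∀ i, (d : ℤ) ∣ a i) → d = 1
  sum : ∑ i, u i * a i = 0
  nvs : ∀ K : Finset (Fin n), K.Nonempty → K ≠ Finset.univ → ∑ i ∈ K, u i * a i ≠ 0
  hi : ∀ i, ((|a i| : ℤ) : ℝ) ≤ H
  div : ∃ i j, (l j : ℤ) ∣ a i

/-- the part of `a i` with exponents at least `R` -/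
def big {n c k : ℕ} (p₀ : Fin c → ℕ) (R : ℕ) (l : Fin k → ℕ) (a : Fin n → ℤ) (i : Fin n) : ℕ :=
  (∏ j, if R ≤ (a i).natAbs.factorization (p₀ j) then
    p₀ j ^ (a i).natAbs.factorization (p₀ j) else 1) *
  ∏ j, if R ≤ (a i).natAbs.factorization (l j) then
    l j ^ (a i).natAbs.factorization (l j) else 1

section

variable {n c k : ℕ} {u : Fin n → ℤ} {p₀ : Fin c → ℕ} {B : ℕ} {l : Fin k → ℕ}
  {a s : Fin n → ℤ}

theorem append_prime (h₀ : ∀ j, (p₀ j).Prime) (hl : ∀ j, (l j).Prime) (j : Fin (c + k)) :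
    (Fin.append p₀ l j).Prime := by
  refine Fin.addCases (fun j => ?_) (fun j => ?_) j
  · rw [Fin.append_left]; exact h₀ j
  · rw [Fin.append_right]; exact hl j

theorem append_inj (h₀ : Function.Injective p₀) (hl : Function.Injective l)
    (h : ∀ j i, l j ≠ p₀ i) : Function.Injective (Fin.append p₀ l) := by
  intro x y
  refine Fin.addCases (fun i => ?_) (fun i => ?_) x
  · refine Fin.addCases (fun j => ?_) (fun j => ?_) y
    · rw [Fin.append_left, Fin.append_left]
      intro h1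
      rw [h₀ h1]
    · rw [Fin.append_left, Fin.append_right]
      intro h1
      exact absurd h1.symm (h j i)
  · refine Fin.addCases (fun j => ?_) (fun j => ?_) y
    · rw [Fin.append_left, Fin.append_right]
      intro h1
      exact absurd h1 (h i j)
    · rw [Fin.append_right, Fin.append_right]
      intro h1
      rw [hl h1]

theorem Rel.good {N R : ℕ} {δ : ℝ} (h : Rel u p₀ B (Real.exp ((N : ℝ) ^ δ)) l a s)
    (h₀ : Function.Injective p₀) (h₀p : ∀ j, (p₀ j).Prime ∧ p₀ j ≤ N)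
    (hl : Function.Injective l) (hlp : ∀ j, (l j).Prime ∧ l j ≤ N) (hne : ∀ j i, l j ≠ p₀ i)
    (hB : B ≤ N) :
    LpGood n (c + k) 1 R δ N u (big p₀ R l a) a s (Fin.append p₀ l)
      (fun i => Fin.append (fun j => (a i).natAbs.factorization (p₀ j))
        (fun j => (a i).natAbs.factorization (l j))) := by
  have hinj := append_inj h₀ hl hne
  have hpr := append_prime (p₀ := p₀) (l := l) (fun j => (h₀p j).1) (fun j => (hlp j).1)
  refine ⟨fun j => ⟨(hpr j).one_le, ?_⟩, fun j j' hj => ?_, fun i => ?_, fun i => ?_, h.nz, h.gcd,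
    h.sum, h.nvs, h.hi, fun i => ?_⟩
  · refine Fin.addCases (fun j => ?_) (fun j => ?_) j
    · rw [Fin.append_left]; exact (h₀p j).2
    · rw [Fin.append_right]; exact (hlp j).2
  · exact (Nat.coprime_primes (hpr j) (hpr j')).2 fun h1 => hj (hinj h1)
  · rw [pow_one]
    exact (h.s1 i).trans (by exact_mod_cast hB)
  · rw [Fin.prod_univ_add]
    simp only [Fin.append_left, Fin.append_right]
    exact h.ha i
  · rw [Fin.prod_univ_add]
    simp only [Fin.append_left, Fin.append_right]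
    rfl

theorem big_primes {R : ℕ} (h₀p : ∀ j, (p₀ j).Prime) (hlp : ∀ j, (l j).Prime) (i : Fin n) :
    (big p₀ R l a i).primeFactors.card ≤ c + k := by
  have hsub : (big p₀ R l a i).primeFactors ⊆ univ.image p₀ ∪ univ.image l := by
    intro q hq
    rw [Nat.mem_primeFactors] at hq
    obtain ⟨hq, hd, -⟩ := hq
    rw [mem_union, mem_image, mem_image]
    unfold big at hd
    rcases (Nat.Prime.dvd_mul hq).1 hd with h1 | h1
    · left
      obtain ⟨j, -, hj⟩ := (Prime.dvd_finsetProd_iff hq.prime _).1 h1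
      refine ⟨j, mem_univ _, ?_⟩
      split_ifs at hj with h2
      · exact ((Nat.prime_dvd_prime_iff_eq hq (h₀p j)).1 (hq.dvd_of_dvd_pow hj)).symm
      · exact absurd (Nat.dvd_one.1 hj) hq.one_lt.ne'
    · right
      obtain ⟨j, -, hj⟩ := (Prime.dvd_finsetProd_iff hq.prime _).1 h1
      refine ⟨j, mem_univ _, ?_⟩
      split_ifs at hj with h2
      · exact ((Nat.prime_dvd_prime_iff_eq hq (hlp j)).1 (hq.dvd_of_dvd_pow hj)).symm
      · exact absurd (Nat.dvd_one.1 hj) hq.one_lt.ne'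
  refine (card_le_card hsub).trans ((card_union_le _ _).trans (Nat.add_le_add ?_ ?_))
  · exact card_image_le.trans (by rw [card_univ, Fintype.card_fin])
  · exact card_image_le.trans (by rw [card_univ, Fintype.card_fin])

theorem dvd_big {R : ℕ} {i : Fin n} {j : Fin k}
    (h : R ≤ (a i).natAbs.factorization (l j)) (h0 : (a i).natAbs.factorization (l j) ≠ 0) :
    l j ∣ big p₀ R l a i := by
  unfold big
  refine Dvd.dvd.mul_left ?_ _
  refine dvd_trans ?_ (dvd_prod_of_mem _ (mem_univ j))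
  rw [if_pos h]
  exact dvd_pow_self _ h0

theorem big_pos {R : ℕ} (h₀p : ∀ j, (p₀ j).Prime) (hlp : ∀ j, (l j).Prime) (i : Fin n) :
    0 < big p₀ R l a i := by
  unfold big
  refine Nat.mul_pos (prod_pos fun j _ => ?_) (prod_pos fun j _ => ?_)
  · split_ifs
    · exact pow_pos (h₀p j).pos _
    · exact one_pos
  · split_ifs
    · exact pow_pos (hlp j).pos _
    · exact one_pos

/-- if all exponents of the `l j` are small, `l` is a zero of a sum of monomials -/
theorem Rel.zero {H : ℝ} {R : ℕ} (h : Rel u p₀ B H l a s)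
    (hlp : ∀ j, (l j).Prime)
    (hsm : ∀ i j, ¬ l j ∣ big p₀ R l a i) :
    ∃ (f : Fin n → Fin c → ℕ) (e : Fin n → Fin k → ℕ) (j₀ : Fin k),
      (∀ i j, f i j < R + 1) ∧ (∀ i j, e i j < R + 1) ∧
      ∑ i, (u i * s i * big p₀ R l a i * ∏ j, (p₀ j : ℤ) ^ f i j) * ∏ j, (l j : ℤ) ^ e i j = 0 ∧
      ∃ e₀, ∑ i ∈ univ.filter (fun i => e i j₀ = e₀),
        (u i * s i * big p₀ R l a i * ∏ j, (p₀ j : ℤ) ^ f i j) *
          ∏ j ∈ univ.erase j₀, (l j : ℤ) ^ e i j ≠ 0 := by
  obtain ⟨i₀, j₀, hd⟩ := h.div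
  let f : Fin n → Fin c → ℕ := fun i j => if R ≤ (a i).natAbs.factorization (p₀ j) then 0 else
    (a i).natAbs.factorization (p₀ j)
  let e : Fin n → Fin k → ℕ := fun i j => (a i).natAbs.factorization (l j)
  -- the decomposition
  have hdec : ∀ i, u i * a i = (u i * s i * big p₀ R l a i * ∏ j, (p₀ j : ℤ) ^ f i j) *
      ∏ j, (l j : ℤ) ^ e i j := by
    intro i
    have h1 : (big p₀ R l a i : ℤ) * ∏ j, (p₀ j : ℤ) ^ f i j =
        ∏ j, (p₀ j : ℤ) ^ (a i).natAbs.factorization (p₀ j) := by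
      have h2 : big p₀ R l a i = ∏ j, if R ≤ (a i).natAbs.factorization (p₀ j) then
          p₀ j ^ (a i).natAbs.factorization (p₀ j) else 1 := by
        unfold big
        have h3 : ∏ j, (if R ≤ (a i).natAbs.factorization (l j) then
            l j ^ (a i).natAbs.factorization (l j) else 1) = 1 := by
          refine prod_eq_one fun j _ => ?_
          split_ifs with h4
          · by_cases h5 : (a i).natAbs.factorization (l j) = 0
            · rw [h5, pow_zero]
            · exact absurd (dvd_big h4 h5) (hsm i j)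
          · rfl
        rw [h3, mul_one]
      rw [h2, Nat.cast_prod, ← prod_mul_distrib]
      refine prod_congr rfl fun j _ => ?_
      change _ * (p₀ j : ℤ) ^ (if R ≤ (a i).natAbs.factorization (p₀ j) then 0 else
        (a i).natAbs.factorization (p₀ j)) = _
      split_ifs with h3
      · push_cast
        ring
      · push_cast
        ring
    calc u i * a i = u i * (s i * ((∏ j, (p₀ j : ℤ) ^ (a i).natAbs.factorization (p₀ j)) *
          ∏ j, (l j : ℤ) ^ (a i).natAbs.factorization (l j))) := by rw [← h.ha i]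
      _ = u i * (s i * (((big p₀ R l a i : ℤ) * ∏ j, (p₀ j : ℤ) ^ f i j) *
          ∏ j, (l j : ℤ) ^ e i j)) := by rw [h1]
      _ = _ := by ring
  refine ⟨f, e, j₀, fun i j => ?_, fun i j => ?_, ?_, e i₀ j₀, ?_⟩
  · change (if R ≤ (a i).natAbs.factorization (p₀ j) then 0 else
      (a i).natAbs.factorization (p₀ j)) < R + 1
    split_ifs with h1
    · omega
    · omega
  · change (a i).natAbs.factorization (l j) < R + 1
    by_contra h1
    exact hsm i j (dvd_big (by omega) (by omega))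
  · rw [← h.sum]
    exact sum_congr rfl fun i _ => (hdec i).symm
  · intro h1
    -- the indices with the same exponent of `l j₀` as `i₀`
    have hK : univ.filter (fun i => e i j₀ = e i₀ j₀) ≠ univ := by
      intro h2
      have h3 : ∀ i, e i j₀ = e i₀ j₀ := fun i => by
        have := mem_univ i
        rw [← h2, mem_filter] at this
        exact this.2
      have h4 : 0 < e i₀ j₀ := by
        have h5 : l j₀ ∣ (a i₀).natAbs := Int.natCast_dvd.1 hd
        exact (hlp j₀).factorization_pos_of_dvd (Int.natAbs_ne_zero.2 (h.nz i₀)) h5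
      have h5 := h.gcd (l j₀) (fun i => by
        have h6 : 0 < (a i).natAbs.factorization (l j₀) := by
          have := h3 i
          change (a i).natAbs.factorization (l j₀) = _ at this
          omega
        exact Int.natCast_dvd.2 (Nat.dvd_of_factorization_pos h6.ne'))
      exact (hlp j₀).one_lt.ne' h5
    refine h.nvs (univ.filter (fun i => e i j₀ = e i₀ j₀))
      ⟨i₀, mem_filter.2 ⟨mem_univ _, rfl⟩⟩ hK ?_
    calc ∑ i ∈ univ.filter (fun i => e i j₀ = e i₀ j₀), u i * a i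
        = ∑ i ∈ univ.filter (fun i => e i j₀ = e i₀ j₀), (l j₀ : ℤ) ^ e i₀ j₀ *
          ((u i * s i * big p₀ R l a i * ∏ j, (p₀ j : ℤ) ^ f i j) *
          ∏ j ∈ univ.erase j₀, (l j : ℤ) ^ e i j) := by
          refine sum_congr rfl fun i hi => ?_
          rw [mem_filter] at hi
          rw [hdec i, ← mul_prod_erase univ (fun j => (l j : ℤ) ^ e i j) (mem_univ j₀), hi.2]
          ring
      _ = 0 := by rw [← mul_sum, h1, mul_zero]

end

/-- **Linear relations between units of random primes.** -/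
theorem nterm_count (n c k : ℕ) (ε : ℝ) (hε : 0 < ε) : ∃ δ C : ℝ, 0 < δ ∧ 0 < C ∧
    ∀ (N B : ℕ) (p₀ : Fin c → ℕ) (u : Fin n → ℤ), 1 ≤ N → B ≤ N → Function.Injective p₀ →
      (∀ j, (p₀ j).Prime ∧ p₀ j ≤ N) →
      (∀ i, u i ≠ 0 ∧ ((|u i| : ℤ) : ℝ) ≤ Real.exp ((N : ℝ) ^ δ)) →
      ∀ G : Finset (Fin k → ℕ), (∀ l ∈ G, Function.Injective l ∧ (∀ j, (l j).Prime ∧ l j ≤ N) ∧
        (∀ j i, l j ≠ p₀ i) ∧ ∃ a s, Rel u p₀ B (Real.exp ((N : ℝ) ^ δ)) l a s) →
      (G.card : ℝ) ≤ C * ((B : ℝ) + 1) ^ n * (N : ℝ) ^ ((k : ℝ) - 1 + ε) := by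
  classical
  obtain ⟨R, δ, hδ, H⟩ := lp n (c + k) 1 ε hε
  refine ⟨δ, ((k * (n * (c + k)) + 2 ^ n * (R + 1) ^ (c * n + k * n + 1) * k : ℕ) : ℝ) * 2 ^ k + 1,
    hδ, by positivity, fun N B p₀ u hN hBN h₀ h₀p hu G hG => ?_⟩
  have hN0 : (0 : ℝ) < N := by exact_mod_cast hN
  have hN1 : (1 : ℝ) ≤ N := by exact_mod_cast hN
  choose! hinj hpr hne a s hrel using hG
  rcases Nat.eq_zero_or_pos k with hk | hk
  · have : G = ∅ := by
      rw [eq_empty_iff_forall_notMem]
      intro l hl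
      obtain ⟨i, j, -⟩ := (hrel l hl).div
      exact absurd j.2 (by omega)
    rw [this, card_empty, Nat.cast_zero]
    positivity
  let A : (Fin k → ℕ) → Fin n → ℕ := fun l => big p₀ R l (a l)
  let 𝒜 : Finset (Fin n → ℕ) := G.image A
  have h𝒜 : (𝒜.card : ℝ) ≤ (N : ℝ) ^ ε := by
    refine H N hN u hu 𝒜 fun A' hA' => ?_
    rw [mem_image] at hA'
    obtain ⟨l, hl, rfl⟩ := hA'
    exact ⟨a l, s l, _, _, (hrel l hl).good h₀ h₀p (hinj l hl) (hpr l hl) (hne l hl) hBN⟩
  -- the primes of the large parts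
  let L : Finset ℕ := 𝒜.biUnion (fun A' => univ.biUnion (fun i => (A' i).primeFactors))
  have hL : L.card ≤ 𝒜.card * (n * (c + k)) := by
    refine (card_biUnion_le.trans (sum_le_sum (g := fun _ => n * (c + k)) fun A' hA' => ?_)).trans
      (by rw [sum_const, smul_eq_mul])
    rw [mem_image] at hA'
    obtain ⟨l, hl, rfl⟩ := hA'
    refine (card_biUnion_le.trans (sum_le_sum (g := fun _ => c + k) fun i _ => ?_)).trans
      (by rw [sum_const, smul_eq_mul, card_univ, Fintype.card_fin])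
    exact big_primes (fun j => (h₀p j).1) (fun j => (hpr l hl j).1) i
  let P : Finset (Fin k → ℕ) := Fintype.piFinset (fun _ : Fin k => range (N + 1))
  -- the two kinds
  let U₁ : Finset (Fin k → ℕ) := (univ : Finset (Fin k)).biUnion (fun j₀ =>
    Fintype.piFinset (fun j : Fin k => if j = j₀ then L else range (N + 1)))
  let D := (Fintype.piFinset (fun _ : Fin n => Icc (-(B : ℤ)) B)) ×ˢ (𝒜 ×ˢ
    ((Fintype.piFinset (fun _ : Fin n => Fintype.piFinset (fun _ : Fin c => range (R + 1)))) ×ˢ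
    ((Fintype.piFinset (fun _ : Fin n => Fintype.piFinset (fun _ : Fin k => range (R + 1)))) ×ˢ
    (univ : Finset (Fin k)))))
  let U₂ : Finset (Fin k → ℕ) := D.biUnion (fun d => P.filter (fun l : Fin k → ℕ =>
    ∑ i, (u i * d.1 i * (d.2.1 i : ℤ) * ∏ j, (p₀ j : ℤ) ^ d.2.2.1 i j) *
      ∏ j, (l j : ℤ) ^ d.2.2.2.1 i j = 0 ∧
    ∃ e₀, ∑ i ∈ univ.filter (fun i => d.2.2.2.1 i d.2.2.2.2 = e₀),
      (u i * d.1 i * (d.2.1 i : ℤ) * ∏ j, (p₀ j : ℤ) ^ d.2.2.1 i j) *
        ∏ j ∈ univ.erase d.2.2.2.2, (l j : ℤ) ^ d.2.2.2.1 i j ≠ 0))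
  have hcov : G ⊆ U₁ ∪ U₂ := by
    intro l hl
    rw [mem_union]
    by_cases h1 : ∃ i j, l j ∣ A l i
    · left
      obtain ⟨i, j, h2⟩ := h1
      refine mem_biUnion.2 ⟨j, mem_univ _, Fintype.mem_piFinset.2 fun j' => ?_⟩
      split_ifs with h3
      · rw [h3]
        refine mem_biUnion.2 ⟨A l, mem_image_of_mem _ hl, mem_biUnion.2 ⟨i, mem_univ _, ?_⟩⟩
        exact Nat.mem_primeFactors.2 ⟨(hpr l hl j).1, h2,
          (big_pos (fun j => (h₀p j).1) (fun j => (hpr l hl j).1) i).ne'⟩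
      · rw [mem_range]
        exact Nat.lt_succ_of_le (hpr l hl j').2
    · right
      push Not at h1
      obtain ⟨f, e, j₀, hf, he, h2, h3⟩ := (hrel l hl).zero (R := R) (fun j => (hpr l hl j).1) h1
      refine mem_biUnion.2 ⟨(s l, A l, f, e, j₀), ?_, ?_⟩
      · simp only [D, mem_product, Fintype.mem_piFinset, mem_Icc, mem_range, mem_univ, and_true]
        exact ⟨fun i => abs_le.1 ((hrel l hl).s1 i), mem_image_of_mem _ hl, hf, he⟩
      · refine mem_filter.2 ⟨Fintype.mem_piFinset.2 fun j => ?_, h2, h3⟩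
        rw [mem_range]
        exact Nat.lt_succ_of_le (hpr l hl j).2
  have hU₁ : U₁.card ≤ k * (L.card * (N + 1) ^ (k - 1)) := by
    refine (card_biUnion_le.trans (sum_le_sum (g := fun _ => L.card * (N + 1) ^ (k - 1))
      fun j₀ _ => ?_)).trans (by rw [sum_const, smul_eq_mul, card_univ, Fintype.card_fin])
    rw [card_pi_one]
  have hD : D.card = (2 * B + 1) ^ n * (𝒜.card * ((R + 1) ^ (c * n) *
      ((R + 1) ^ (k * n) * k))) := by
    simp only [D, card_product, Fintype.card_piFinset, prod_const, card_univ, Fintype.card_fin,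
      card_range, Int.card_Icc, ← pow_mul]
    congr 2
    omega
  have hU₂ : U₂.card ≤ D.card * ((R + 1) * (N + 1) ^ (k - 1)) := by
    refine (card_biUnion_le.trans (sum_le_sum (g := fun _ => (R + 1) * (N + 1) ^ (k - 1))
      fun d hd => ?_)).trans (by rw [sum_const, smul_eq_mul])
    have he : ∀ i j, d.2.2.2.1 i j < R + 1 := by
      simp only [D, mem_product, Fintype.mem_piFinset, mem_range] at hd
      exact hd.2.2.2.1
    exact zeros_count n k N (R + 1)
      (fun i => u i * d.1 i * (d.2.1 i : ℤ) * ∏ j, (p₀ j : ℤ) ^ d.2.2.1 i j) d.2.2.2.1 he d.2.2.2.2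
  have hG1 : G.card ≤ (k * (n * (c + k)) + (2 * B + 1) ^ n * (R + 1) ^ (c * n + k * n + 1) * k) *
      (𝒜.card * (N + 1) ^ (k - 1)) := by
    calc G.card ≤ U₁.card + U₂.card := (card_le_card hcov).trans (card_union_le _ _)
      _ ≤ k * ((𝒜.card * (n * (c + k))) * (N + 1) ^ (k - 1)) +
          ((2 * B + 1) ^ n * (𝒜.card * ((R + 1) ^ (c * n) * ((R + 1) ^ (k * n) * k)))) *
            ((R + 1) * (N + 1) ^ (k - 1)) := by
          refine Nat.add_le_add (hU₁.trans ?_) (hU₂.trans (by rw [hD]))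
          exact Nat.mul_le_mul_left _ (Nat.mul_le_mul_right _ hL)
      _ = _ := by ring
  have hB2 : (2 * B + 1) ^ n ≤ 2 ^ n * (B + 1) ^ n := by
    rw [← mul_pow]
    exact Nat.pow_le_pow_left (by omega) n
  have hN2 : (N + 1) ^ (k - 1) ≤ 2 ^ k * N ^ (k - 1) := by
    calc (N + 1) ^ (k - 1) ≤ (2 * N) ^ (k - 1) := Nat.pow_le_pow_left (by omega) _
      _ = 2 ^ (k - 1) * N ^ (k - 1) := mul_pow _ _ _
      _ ≤ _ := Nat.mul_le_mul_right _ (Nat.pow_le_pow_right (by norm_num) (by omega))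
  have hB1 : 1 ≤ (B + 1) ^ n := Nat.one_le_pow _ _ (by omega)
  have hG2 : G.card ≤ ((k * (n * (c + k)) + 2 ^ n * (R + 1) ^ (c * n + k * n + 1) * k) * 2 ^ k) *
      ((B + 1) ^ n * (𝒜.card * N ^ (k - 1))) := by
    calc G.card ≤ _ := hG1
      _ ≤ ((k * (n * (c + k))) * (B + 1) ^ n +
          (2 ^ n * (B + 1) ^ n) * (R + 1) ^ (c * n + k * n + 1) * k) *
          (𝒜.card * (2 ^ k * N ^ (k - 1))) := by
          refine Nat.mul_le_mul (Nat.add_le_add (Nat.le_mul_of_pos_right _ (by omega)) ?_)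
            (Nat.mul_le_mul_left _ hN2)
          exact Nat.mul_le_mul_right _ (Nat.mul_le_mul_right _ hB2)
      _ = _ := by ring
  have hG3 : (G.card : ℝ) ≤ (((k * (n * (c + k)) + 2 ^ n * (R + 1) ^ (c * n + k * n + 1) * k :
      ℕ) : ℝ) * 2 ^ k) * (((B : ℝ) + 1) ^ n * ((𝒜.card : ℝ) * (N : ℝ) ^ (k - 1))) := by
    exact_mod_cast hG2
  have hNk : (N : ℝ) ^ ((k : ℝ) - 1 + ε) = (N : ℝ) ^ ε * (N : ℝ) ^ (k - 1) := by
    rw [Real.rpow_add hN0, mul_comm, ← Real.rpow_natCast, Nat.cast_sub (by omega), Nat.cast_one]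
  rw [hNk]
  calc (G.card : ℝ) ≤ _ := hG3
    _ ≤ (((k * (n * (c + k)) + 2 ^ n * (R + 1) ^ (c * n + k * n + 1) * k : ℕ) : ℝ) * 2 ^ k + 1) *
        (((B : ℝ) + 1) ^ n * ((N : ℝ) ^ ε * (N : ℝ) ^ (k - 1))) := by
        gcongr
        linarith
    _ = _ := by ring

end Pool.Agent.X61.RS
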