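import Pool.Agent.X61.RS.Fam
import Pool.Agent.X61.HX.Sum

/-! Relations between pairwise coprime integers and random sets of primes: the sharp threshold. -/

set_option autoImplicit false

namespace Pool.Agent.X61.RS.Thr

open Finset
open Pool.Agent.X4.HC (rad rad_pos)

variable {n : ℕ}

/-- the tuples of nonzero pairwise coprime integers with sum `0` and absolute values at most `H` -/
def Tup (H : ℕ) (x : Fin n → ℤ) : Prop :=
  (∀ i, x i ≠ 0 ∧ (x i).natAbs ≤ H) ∧ (∀ i j, i ≠ j → IsCoprime (x i) (x j)) ∧ ∑ i, x i = 0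

/-- the absolute value of the product -/
def pr (x : Fin n → ℤ) : ℕ := ∏ i, (x i).natAbs

/-- the product of the primes outside `S` dividing `m` -/
def outer (S : Finset ℕ) (m : ℕ) : ℕ := ∏ p ∈ m.primeFactors \ S, p

/-- there is a tuple divisible by a prime of `T` for which the outer radical is at most `Y` -/
def Bad (n H : ℕ) (S₀ T : Finset ℕ) (Y : ℝ) : Prop :=
  ∃ x : Fin n → ℤ, Tup H x ∧ (outer (S₀ ∪ T) (pr x) : ℝ) ≤ Y ∧ ∃ p ∈ T, p ∣ pr x

theorem pr_ne {H : ℕ} {x : Fin n → ℤ} (h : Tup H x) : pr x ≠ 0 :=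
  prod_ne_zero_iff.2 fun i _ => Int.natAbs_ne_zero.2 (h.1 i).1

/-- `∑ 1 / rad` over the nonzero integers of absolute value at most `H` -/
theorem sum_int {δ : ℝ} (hδ : 0 < δ) : ∃ C : ℝ, 1 ≤ C ∧ ∀ H : ℕ, 1 ≤ H →
    ∑ z ∈ (Icc (-(H : ℤ)) H).filter (fun z => z ≠ 0), ((rad z.natAbs : ℝ))⁻¹ ≤ C * (H : ℝ) ^ δ := by
  obtain ⟨C, hC, h⟩ := Pool.Agent.X61.HX.sum_small hδ one_pos
  refine ⟨2 * C + 1, by linarith, fun H hH => ?_⟩
  have hH1 : (1 : ℝ) ≤ H := by exact_mod_cast hH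
  have h1 := h 1 H hH zero_le_one (by
    have := Real.log_nonneg hH1
    linarith)
  simp only [one_pow] at h1
  have h2 : (Icc (-(H : ℤ)) H).filter (fun z => z ≠ 0) ⊆
      (Icc 1 H).image (fun m : ℕ => (m : ℤ)) ∪ (Icc 1 H).image (fun m : ℕ => -(m : ℤ)) := by
    intro z hz
    rw [mem_filter, mem_Icc] at hz
    rw [mem_union, mem_image, mem_image]
    rcases lt_or_gt_of_ne hz.2 with h3 | h3
    · right
      refine ⟨z.natAbs, ?_, by omega⟩
      rw [mem_Icc]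
      omega
    · left
      refine ⟨z.natAbs, ?_, by omega⟩
      rw [mem_Icc]
      omega
  have hnn : ∀ z : ℤ, 0 ≤ ((rad z.natAbs : ℝ))⁻¹ := fun z => by positivity
  calc ∑ z ∈ (Icc (-(H : ℤ)) H).filter (fun z => z ≠ 0), ((rad z.natAbs : ℝ))⁻¹
      ≤ ∑ z ∈ (Icc 1 H).image (fun m : ℕ => (m : ℤ)) ∪ (Icc 1 H).image (fun m : ℕ => -(m : ℤ)),
          ((rad z.natAbs : ℝ))⁻¹ := sum_le_sum_of_subset_of_nonneg h2 fun z _ _ => hnn z
    _ ≤ ∑ z ∈ (Icc 1 H).image (fun m : ℕ => (m : ℤ)), ((rad z.natAbs : ℝ))⁻¹ +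
          ∑ z ∈ (Icc 1 H).image (fun m : ℕ => -(m : ℤ)), ((rad z.natAbs : ℝ))⁻¹ := by
        rw [← sum_union_inter]
        exact le_add_of_nonneg_right (sum_nonneg fun z _ => hnn z)
    _ = ∑ m ∈ Icc 1 H, ((rad m : ℝ))⁻¹ + ∑ m ∈ Icc 1 H, ((rad m : ℝ))⁻¹ := by
        rw [sum_image (fun a _ b _ hab => by exact_mod_cast hab),
          sum_image (fun a _ b _ hab => by
            have : (a : ℤ) = b := neg_injective hab
            exact_mod_cast this)]
        simp only [Int.natAbs_neg, Int.natAbs_natCast]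
    _ ≤ C * (H : ℝ) ^ δ + C * (H : ℝ) ^ δ := by
        have h3 : ∑ m ∈ Icc 1 H, ((rad m : ℝ))⁻¹ = ∑ m ∈ Icc 1 H, 1 / (rad m : ℝ) :=
          sum_congr rfl fun m _ => inv_eq_one_div _
        rw [h3]
        exact add_le_add h1 h1
    _ ≤ _ := by
        have : 0 ≤ (H : ℝ) ^ δ := by positivity
        nlinarith

/-- the sum over the tuples of the weights of all entries but one -/
theorem sum_tup (n : ℕ) {δ : ℝ} (hδ : 0 < δ) : ∃ C : ℝ, 1 ≤ C ∧ ∀ (H : ℕ) (i₀ : Fin n)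
    (X : Finset (Fin n → ℤ)), 1 ≤ H → (∀ x ∈ X, Tup H x) →
      ∑ x ∈ X, ∏ l ∈ univ.erase i₀, ((rad (x l).natAbs : ℝ))⁻¹ ≤ C * (H : ℝ) ^ δ := by
  obtain ⟨C, hC, h⟩ := sum_int (δ := δ / n.succ) (by positivity)
  refine ⟨C ^ n, one_le_pow₀ hC, fun H i₀ X hH hX => ?_⟩
  have hH1 : (1 : ℝ) ≤ H := by exact_mod_cast hH
  have hH0 : (0 : ℝ) < H := by linarith
  set t : Fin n → Finset ℤ := fun l => if l = i₀ then {1} else
    (Icc (-(H : ℤ)) H).filter (fun z => z ≠ 0) with ht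
  set f : (Fin n → ℤ) → (Fin n → ℤ) := fun x => Function.update x i₀ 1 with hf
  have hr1 : rad 1 = 1 := by simp [rad]
  have hinj : Set.InjOn f X := by
    intro x hx y hy hxy
    have e : ∀ l, l ≠ i₀ → x l = y l := by
      intro l hl
      have := congrFun hxy l
      simpa [hf, Function.update_of_ne hl] using this
    funext l
    by_cases hl : l = i₀
    · subst hl
      have sx := (hX x hx).2.2
      have sy := (hX y hy).2.2
      rw [← add_sum_erase univ _ (mem_univ l)] at sx sy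
      have : ∑ j ∈ univ.erase l, x j = ∑ j ∈ univ.erase l, y j :=
        sum_congr rfl fun j hj => e j (ne_of_mem_erase hj)
      linarith
    · exact e l hl
  have hval : ∀ x, ∏ l ∈ univ.erase i₀, ((rad (x l).natAbs : ℝ))⁻¹ =
      ∏ l, ((rad (f x l).natAbs : ℝ))⁻¹ := by
    intro x
    rw [← mul_prod_erase univ (fun l => ((rad (f x l).natAbs : ℝ))⁻¹) (mem_univ i₀)]
    have e1 : f x i₀ = 1 := Function.update_self _ _ _
    rw [e1]
    have e2 : ((rad (1 : ℤ).natAbs : ℝ))⁻¹ = 1 := by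
      simp [hr1]
    rw [e2, one_mul]
    refine prod_congr rfl fun l hl => ?_
    have e3 : f x l = x l := Function.update_of_ne (ne_of_mem_erase hl) _ _
    rw [e3]
  have hmem : ∀ x ∈ X, f x ∈ Fintype.piFinset t := by
    intro x hx
    rw [Fintype.mem_piFinset]
    intro l
    by_cases hl : l = i₀
    · subst hl
      simp [hf, ht]
    · have e3 : f x l = x l := Function.update_of_ne hl _ _
      have h3 := (hX x hx).1 l
      simp only [ht, if_neg hl, e3, mem_filter, mem_Icc]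
      refine ⟨by omega, h3.1⟩
  calc ∑ x ∈ X, ∏ l ∈ univ.erase i₀, ((rad (x l).natAbs : ℝ))⁻¹
      = ∑ x ∈ X, ∏ l, ((rad (f x l).natAbs : ℝ))⁻¹ := sum_congr rfl fun x _ => hval x
    _ = ∑ g ∈ X.image f, ∏ l, ((rad (g l).natAbs : ℝ))⁻¹ := 
        (sum_image (f := fun g : Fin n → ℤ => ∏ l, ((rad (g l).natAbs : ℝ))⁻¹) hinj).symm
    _ ≤ ∑ g ∈ Fintype.piFinset t, ∏ l, ((rad (g l).natAbs : ℝ))⁻¹ := by
        refine sum_le_sum_of_subset_of_nonneg ?_ fun g _ _ => prod_nonneg fun l _ => by positivity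
        intro g hg
        obtain ⟨x, hx, rfl⟩ := mem_image.1 hg
        exact hmem x hx
    _ = ∏ l, ∑ z ∈ t l, ((rad z.natAbs : ℝ))⁻¹ :=
        (prod_univ_sum t (fun _ z => ((rad z.natAbs : ℝ))⁻¹)).symm
    _ ≤ ∏ _l : Fin n, (C * (H : ℝ) ^ (δ / n.succ)) := by
        refine prod_le_prod (fun l _ => sum_nonneg fun z _ => by positivity) fun l _ => ?_
        by_cases hl : l = i₀
        · have e : t l = {1} := by simp [ht, hl]
          rw [e, sum_singleton]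
          have e2 : ((rad (1 : ℤ).natAbs : ℝ))⁻¹ = 1 := by simp [hr1]
          rw [e2]
          have : (1 : ℝ) ≤ (H : ℝ) ^ (δ / n.succ) := Real.one_le_rpow hH1 (by positivity)
          nlinarith
        · have e : t l = (Icc (-(H : ℤ)) H).filter (fun z => z ≠ 0) := by simp [ht, hl]
          rw [e]
          exact h H hH
    _ = C ^ n * (H : ℝ) ^ (δ / n.succ * n) := by
        rw [prod_const, card_univ, Fintype.card_fin, mul_pow, ← Real.rpow_natCast
          ((H : ℝ) ^ (δ / n.succ)), ← Real.rpow_mul hH0.le]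
    _ ≤ C ^ n * (H : ℝ) ^ δ := by
        refine mul_le_mul_of_nonneg_left (Real.rpow_le_rpow_of_exponent_le hH1 ?_) (by positivity)
        have h1 : (0 : ℝ) < (n.succ : ℝ) := by positivity
        rw [div_mul_eq_mul_div, div_le_iff₀ h1]
        push_cast
        nlinarith

theorem prod_mono_nat {A B : Finset ℕ} (hB : ∀ p ∈ B, p.Prime) (h : A ⊆ B) : ∏ p ∈ A, p ≤ ∏ p ∈ B, p :=
  Nat.le_of_dvd (prod_pos fun p hp => (hB p hp).pos) (prod_dvd_prod_of_subset _ _ _ h)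

theorem prod_union_le (A B : Finset ℕ) (hA : ∀ p ∈ A, p.Prime) :
    ∏ p ∈ A ∪ B, p ≤ (∏ p ∈ A, p) * ∏ p ∈ B, p := by
  rw [← prod_union_inter]
  refine Nat.le_mul_of_pos_right _ (prod_pos fun p hp => (hA p (mem_inter.1 hp).1).pos)

/-- the pointwise estimate -/
theorem key (hn : 2 ≤ n) {H N k : ℕ} {S₀ P : Finset ℕ} (h₀ : ∀ p ∈ S₀, p.Prime)
    (hP : ∀ p ∈ P, p.Prime ∧ p ≤ N ∧ p ∉ S₀) (hk : 1 ≤ k) (hM : 0 < P.card) {Y : ℝ} (hY : 1 ≤ Y)
    (hQ : (N : ℝ) ^ (n - 1) * (k : ℝ) ^ n / (P.card : ℝ) ^ n ≤ 1)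
    {x : Fin n → ℤ} (hx : Tup H x) {J : Finset ℕ} (hJP : J ⊆ P) (hJx : J ⊆ (pr x).primeFactors)
    (hJ : J.Nonempty) (hout : (outer (S₀ ∪ J) (pr x) : ℝ) ≤ Y) :
    ((k : ℝ) / P.card) ^ J.card ≤ (N : ℝ) ^ (n - 1) * (k : ℝ) ^ n / (P.card : ℝ) ^ n *
      (Y * ((∏ p ∈ S₀, p : ℕ) : ℝ)) * ∑ i₀, ∏ l ∈ univ.erase i₀, ((rad (x l).natAbs : ℝ))⁻¹ := by
  classical
  have hMr : (0 : ℝ) < P.card := by exact_mod_cast hM
  obtain ⟨p₀, hp₀⟩ := hJ
  have hPr := pr_ne hx
  have hN1 : 1 ≤ N := (hP p₀ (hJP hp₀)).1.one_le.trans (hP p₀ (hJP hp₀)).2.1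
  have hNr : (1 : ℝ) ≤ N := by exact_mod_cast hN1
  have hkr : (1 : ℝ) ≤ k := by exact_mod_cast hk
  have hMN : (P.card : ℝ) ≤ N := by
    have : P.card ≤ N := by
      calc P.card ≤ (Icc 1 N).card := card_le_card fun p hp => by
            rw [mem_Icc]
            exact ⟨(hP p hp).1.one_le, (hP p hp).2.1⟩
        _ = N := by rw [Nat.card_Icc]; omega
    exact_mod_cast this
  set W : ℝ := ((∏ p ∈ S₀, p : ℕ) : ℝ) with hW
  have hW1 : 1 ≤ W := by
    have : 1 ≤ ∏ p ∈ S₀, p := Nat.one_le_iff_ne_zero.2 (prod_ne_zero_iff.2 fun p hp => (h₀ p hp).ne_zero)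
    rw [hW]
    exact Nat.one_le_cast.2 this
  set Ji : Fin n → Finset ℕ := fun i => J.filter (fun p => p ∣ (x i).natAbs) with hJi
  obtain ⟨i₀, -, hi₀⟩ := exists_max_image (univ : Finset (Fin n)) (fun i => (Ji i).card)
    ⟨⟨0, by omega⟩, mem_univ _⟩
  have hcov : ∀ p ∈ J, ∃ i, p ∈ Ji i := by
    intro p hp
    have h1 := Nat.mem_primeFactors.1 (hJx hp)
    obtain ⟨i, -, hi⟩ := (Prime.dvd_finsetProd_iff h1.1.prime _).1 h1.2.1
    exact ⟨i, mem_filter.2 ⟨hp, hi⟩⟩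
  have hm1 : 1 ≤ (Ji i₀).card := by
    obtain ⟨i, hi⟩ := hcov p₀ hp₀
    exact (card_pos.2 ⟨p₀, hi⟩).trans_le (hi₀ i (mem_univ i))
  set m := (Ji i₀).card with hm
  set J' := J \ Ji i₀ with hJ'
  have hcard : m + J'.card = J.card := by
    have e := card_sdiff_add_card_eq_card (filter_subset (fun p => p ∣ (x i₀).natAbs) J)
    have e' : J'.card + m = J.card := e
    omega
  have hs : J'.card ≤ (n - 1) * m := by
    have h1 : J' ⊆ (univ.erase i₀).biUnion Ji := by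
      intro p hp
      rw [hJ', mem_sdiff] at hp
      obtain ⟨i, hi⟩ := hcov p hp.1
      rw [mem_biUnion]
      refine ⟨i, mem_erase.2 ⟨?_, mem_univ _⟩, hi⟩
      intro h
      rw [h] at hi
      exact hp.2 hi
    refine (card_le_card h1).trans (card_biUnion_le.trans ?_)
    refine (sum_le_sum (g := fun _ => m) fun i _ => hi₀ i (mem_univ i)).trans (le_of_eq ?_)
    rw [sum_const, card_erase_of_mem (mem_univ _), card_univ, Fintype.card_fin, smul_eq_mul]
  -- the radical of the other entries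
  have hcop : ∀ i j, i ≠ j → Nat.Coprime (x i).natAbs (x j).natAbs := fun i j hij =>
    Int.isCoprime_iff_gcd_eq_one.1 (hx.2.1 i j hij)
  have hrad : ∏ l ∈ univ.erase i₀, rad (x l).natAbs ≤
      (∏ p ∈ J', p) * ((∏ p ∈ S₀, p) * outer (S₀ ∪ J) (pr x)) := by
    have e1 : ∏ l ∈ univ.erase i₀, rad (x l).natAbs =
        ∏ p ∈ (univ.erase i₀).biUnion (fun l => (x l).natAbs.primeFactors), p := by
      rw [prod_biUnion]
      · rfl
      · intro i _ j _ hij
        exact (hcop i j hij).disjoint_primeFactors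
    rw [e1]
    have hprimeout : ∀ p ∈ (pr x).primeFactors \ (S₀ ∪ J), p.Prime := fun p hp =>
      Nat.prime_of_mem_primeFactors (mem_sdiff.1 hp).1
    have hprJ' : ∀ p ∈ J', p.Prime := fun p hp => (hP p (hJP (mem_sdiff.1 hp).1)).1
    have hsub : (univ.erase i₀).biUnion (fun l => (x l).natAbs.primeFactors) ⊆
        J' ∪ (S₀ ∪ (pr x).primeFactors \ (S₀ ∪ J)) := by
      intro p hp
      rw [mem_biUnion] at hp
      obtain ⟨l, hl, hpl⟩ := hp
      have hpl' := Nat.mem_primeFactors.1 hpl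
      have hppr : p ∈ (pr x).primeFactors := Nat.mem_primeFactors.2
        ⟨hpl'.1, hpl'.2.1.trans (dvd_prod_of_mem _ (mem_univ l)), hPr⟩
      by_cases hpJ : p ∈ J
      · rw [mem_union]
        left
        rw [hJ', mem_sdiff]
        refine ⟨hpJ, fun h => ?_⟩
        have h1 : p ∣ (x i₀).natAbs := (mem_filter.1 h).2
        exact Nat.Prime.not_coprime_iff_dvd.2 ⟨p, hpl'.1, h1, hpl'.2.1⟩
          (hcop i₀ l (ne_of_mem_erase hl).symm)
      · simp only [mem_union, mem_sdiff]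
        tauto
    have hall : ∀ p ∈ J' ∪ (S₀ ∪ (pr x).primeFactors \ (S₀ ∪ J)), p.Prime := by
      intro p hp
      rw [mem_union, mem_union] at hp
      rcases hp with hp | hp | hp
      · exact hprJ' p hp
      · exact h₀ p hp
      · exact hprimeout p hp
    refine (prod_mono_nat hall hsub).trans ?_
    refine (prod_union_le _ _ hprJ').trans ?_
    refine Nat.mul_le_mul_left _ ?_
    exact prod_union_le _ _ h₀
  have hJ'N : ((∏ p ∈ J', p : ℕ) : ℝ) ≤ (N : ℝ) ^ J'.card := by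
    have : ∏ p ∈ J', p ≤ N ^ J'.card :=
      prod_le_pow_card _ _ _ fun p hp => (hP p (hJP (mem_sdiff.1 hp).1)).2.1
    exact_mod_cast this
  set R : ℝ := ∏ l ∈ univ.erase i₀, (rad (x l).natAbs : ℝ) with hR
  have hR0 : 0 < R := prod_pos fun l _ => by exact_mod_cast rad_pos _
  have hRle : R ≤ (N : ℝ) ^ J'.card * (W * Y) := by
    have h1 : R ≤ ((∏ p ∈ J', p : ℕ) : ℝ) * (W * (outer (S₀ ∪ J) (pr x) : ℝ)) := by
      rw [hR, hW]
      exact_mod_cast hrad
    refine h1.trans ?_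
    gcongr
  have hNs : (0 : ℝ) < (N : ℝ) ^ J'.card := by positivity
  have h1 : ((N : ℝ) ^ J'.card)⁻¹ ≤ W * Y * R⁻¹ := by
    rw [← div_eq_mul_inv, le_div_iff₀ hR0, inv_mul_le_iff₀ hNs]
    exact hRle
  have hNk : 1 ≤ (N : ℝ) * k / P.card := by
    rw [one_le_div hMr]
    nlinarith
  set Q : ℝ := (N : ℝ) ^ (n - 1) * (k : ℝ) ^ n / (P.card : ℝ) ^ n with hQd
  have hQ0 : 0 ≤ Q := by positivity
  have h2 : ((N : ℝ) * k / P.card) ^ J'.card * ((k : ℝ) / P.card) ^ m ≤ Q := by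
    calc ((N : ℝ) * k / P.card) ^ J'.card * ((k : ℝ) / P.card) ^ m
        ≤ ((N : ℝ) * k / P.card) ^ ((n - 1) * m) * ((k : ℝ) / P.card) ^ m :=
          mul_le_mul_of_nonneg_right (pow_le_pow_right₀ hNk hs) (by positivity)
      _ = Q ^ m := by
          rw [pow_mul, ← mul_pow, hQd]
          congr 1
          obtain ⟨n', rfl⟩ : ∃ n', n = n' + 1 := ⟨n - 1, by omega⟩
          rw [Nat.add_sub_cancel]
          rw [div_pow, mul_pow, pow_succ (k : ℝ), pow_succ (P.card : ℝ)]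
          field_simp
      _ ≤ Q ^ 1 := pow_le_pow_of_le_one hQ0 hQ hm1
      _ = Q := pow_one Q
  have h3 : ((k : ℝ) / P.card) ^ J.card =
      ((N : ℝ) * k / P.card) ^ J'.card * ((k : ℝ) / P.card) ^ m * ((N : ℝ) ^ J'.card)⁻¹ := by
    rw [← hcard, pow_add, mul_div_assoc, mul_pow]
    field_simp
  have h4 : R⁻¹ ≤ ∑ i₀, ∏ l ∈ univ.erase i₀, ((rad (x l).natAbs : ℝ))⁻¹ := by
    rw [hR, ← prod_inv_distrib]
    exact single_le_sum (f := fun i₀ => ∏ l ∈ univ.erase i₀, ((rad (x l).natAbs : ℝ))⁻¹)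
      (fun i _ => prod_nonneg fun l _ => by positivity) (mem_univ i₀)
  rw [h3]
  calc ((N : ℝ) * k / P.card) ^ J'.card * ((k : ℝ) / P.card) ^ m * ((N : ℝ) ^ J'.card)⁻¹
      ≤ Q * (W * Y * R⁻¹) := mul_le_mul h2 h1 (by positivity) hQ0
    _ ≤ Q * (W * Y * ∑ i₀, ∏ l ∈ univ.erase i₀, ((rad (x l).natAbs : ℝ))⁻¹) := by gcongr
    _ = _ := by ring

open Classical in
/-- **The threshold.** -/
theorem nset_count (n : ℕ) (hn : 2 ≤ n) {ε : ℝ} (hε : 0 < ε) : ∃ C : ℝ, 0 < C ∧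
    ∀ (H N k : ℕ) (S₀ P : Finset ℕ) (Y : ℝ), 1 ≤ H → (∀ p ∈ S₀, p.Prime) →
      (∀ p ∈ P, p.Prime ∧ p ≤ N ∧ p ∉ S₀) → 1 ≤ Y →
      (((P.powersetCard k).filter (fun T => Bad n H S₀ T Y)).card : ℝ) * (P.card : ℝ) ^ n ≤
        C * (H : ℝ) ^ ε * (Y * ((∏ p ∈ S₀, p : ℕ) : ℝ)) * ((N : ℝ) ^ (n - 1) * (k : ℝ) ^ n) *
          P.card.choose k := by
  have hn0 : (0 : ℝ) < n := by
    have : 0 < n := by omega
    exact_mod_cast this
  obtain ⟨C₂, hC₂, h2⟩ := two_pow_card (show 0 < ε / (2 * n) by positivity)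
  obtain ⟨C₃, hC₃, h3⟩ := sum_tup n (show 0 < ε / 2 by positivity)
  refine ⟨n * C₂ * C₃ + 1, by positivity, fun H N k S₀ P Y hH h₀ hP hY => ?_⟩
  set M : ℕ := P.card with hM
  set W : ℝ := ((∏ p ∈ S₀, p : ℕ) : ℝ) with hW
  have hW1 : 1 ≤ W := by
    have : 1 ≤ ∏ p ∈ S₀, p := Nat.one_le_iff_ne_zero.2 (prod_ne_zero_iff.2 fun p hp => (h₀ p hp).ne_zero)
    rw [hW]
    exact Nat.one_le_cast.2 this
  have hH1 : (1 : ℝ) ≤ H := by exact_mod_cast hH
  have hH0 : (0 : ℝ) < H := by linarith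
  have hHε : 1 ≤ (H : ℝ) ^ ε := Real.one_le_rpow hH1 hε.le
  rcases Nat.eq_zero_or_pos k with hk0 | hk0
  · subst hk0
    have : (P.powersetCard 0).filter (fun T => Bad n H S₀ T Y) = ∅ := by
      rw [filter_eq_empty_iff]
      intro S hS hB
      rw [mem_powersetCard, card_eq_zero] at hS
      obtain ⟨x, -, -, p, hp, -⟩ := hB
      rw [hS.2] at hp
      exact absurd hp (notMem_empty p)
    rw [this, card_empty, Nat.cast_zero, zero_mul]
    positivity
  rcases lt_or_ge M k with hMk | hMk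
  · rw [powersetCard_eq_empty.2 hMk, filter_empty, card_empty, Nat.cast_zero, zero_mul]
    positivity
  have hM0 : 0 < M := by omega
  have hMr : (0 : ℝ) < M := by exact_mod_cast hM0
  have hkr : (0 : ℝ) < k := by exact_mod_cast hk0
  set Q : ℝ := (N : ℝ) ^ (n - 1) * (k : ℝ) ^ n / (M : ℝ) ^ n with hQ
  have hQ0 : 0 ≤ Q := by positivity
  have hch : (0 : ℝ) ≤ (M.choose k : ℝ) := Nat.cast_nonneg _
  rcases lt_or_ge 1 Q with hQ1 | hQ1
  · -- trivial
    have h4 : (((P.powersetCard k).filter (fun T => Bad n H S₀ T Y)).card : ℝ) ≤ M.choose k := by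
      have : ((P.powersetCard k).filter (fun T => Bad n H S₀ T Y)).card ≤ M.choose k := by
        rw [← card_powersetCard]
        exact card_filter_le _ _
      exact_mod_cast this
    have h5 : (M : ℝ) ^ n ≤ (N : ℝ) ^ (n - 1) * (k : ℝ) ^ n := by
      rw [hQ, lt_div_iff₀ (by positivity), one_mul] at hQ1
      exact hQ1.le
    have hc1 : (1 : ℝ) ≤ (n * C₂ * C₃ + 1) * (H : ℝ) ^ ε * (Y * W) := by
      have e1 : (1 : ℝ) ≤ n * C₂ * C₃ + 1 := by
        have : 0 ≤ n * C₂ * C₃ := by positivity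
        linarith
      have e2 : (1 : ℝ) ≤ (n * C₂ * C₃ + 1) * (H : ℝ) ^ ε := by nlinarith
      have e3 : (1 : ℝ) ≤ Y * W := by nlinarith
      nlinarith
    calc _ ≤ (M.choose k : ℝ) * ((N : ℝ) ^ (n - 1) * (k : ℝ) ^ n) :=
          mul_le_mul h4 h5 (by positivity) hch
      _ = 1 * (((N : ℝ) ^ (n - 1) * (k : ℝ) ^ n) * M.choose k) := by ring
      _ ≤ ((n * C₂ * C₃ + 1) * (H : ℝ) ^ ε * (Y * W)) *
            (((N : ℝ) ^ (n - 1) * (k : ℝ) ^ n) * M.choose k) :=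
          mul_le_mul_of_nonneg_right hc1 (by positivity)
      _ = _ := by ring
  -- the main case
  set X : Finset (Fin n → ℤ) := (Fintype.piFinset fun _ => Icc (-(H : ℤ)) H).filter (Tup H) with hX
  have hXm : ∀ x ∈ X, Tup H x := fun x hx => (mem_filter.1 hx).2
  let 𝒥 : (Fin n → ℤ) → Finset (Finset ℕ) := fun x =>
    ((pr x).primeFactors ∩ P).powerset.filter (fun J => J.Nonempty ∧ J.card ≤ k ∧
      (outer (S₀ ∪ J) (pr x) : ℝ) ≤ Y)
  have hcov : (P.powersetCard k).filter (fun T => Bad n H S₀ T Y) ⊆ X.biUnion (fun x =>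
      (𝒥 x).biUnion (fun J => (P.powersetCard k).filter (fun T => J ⊆ T))) := by
    intro T hT
    rw [mem_filter, mem_powersetCard] at hT
    obtain ⟨⟨hTP, hTk⟩, x, hx, hout, p, hp, hpx⟩ := hT
    have hpr := pr_ne hx
    rw [mem_biUnion]
    refine ⟨x, mem_filter.2 ⟨?_, hx⟩, ?_⟩
    · rw [Fintype.mem_piFinset]
      intro i
      have := (hx.1 i).2
      rw [mem_Icc]
      omega
    rw [mem_biUnion]
    refine ⟨T ∩ (pr x).primeFactors, ?_, ?_⟩
    · rw [mem_filter, mem_powerset]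
      refine ⟨?_, ⟨p, mem_inter.2 ⟨hp, Nat.mem_primeFactors.2 ⟨(hP p (hTP hp)).1, hpx, hpr⟩⟩⟩,
        (card_le_card inter_subset_left).trans hTk.le, ?_⟩
      · intro q hq
        rw [mem_inter] at hq ⊢
        exact ⟨hq.2, hTP hq.1⟩
      · have e : (pr x).primeFactors \ (S₀ ∪ T ∩ (pr x).primeFactors) =
            (pr x).primeFactors \ (S₀ ∪ T) := by
          ext q
          simp only [mem_sdiff, mem_union, mem_inter]
          tauto
        unfold outer at hout ⊢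
        rw [e]
        exact hout
    · rw [mem_filter, mem_powersetCard]
      exact ⟨⟨hTP, hTk⟩, inter_subset_left⟩
  have hJ : ∀ x ∈ X, ∀ J ∈ 𝒥 x, (((P.powersetCard k).filter (fun T => J ⊆ T)).card : ℝ) ≤
      (M.choose k : ℝ) * (Q * (Y * W) * ∑ i₀, ∏ l ∈ univ.erase i₀, ((rad (x l).natAbs : ℝ))⁻¹) := by
    intro x hx J hJ
    rw [mem_filter, mem_powerset] at hJ
    obtain ⟨hJ1, hJ2, hJ3, hJ4⟩ := hJ
    have hJP : J ⊆ P := fun p hp => (mem_inter.1 (hJ1 hp)).2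
    have hJx : J ⊆ (pr x).primeFactors := fun p hp => (mem_inter.1 (hJ1 hp)).1
    have e1 := card_supersets' P J hJP k
    have e2 : (((M - J.card).choose (k - J.card) : ℕ) : ℝ) ≤ (M.choose k : ℝ) * ((k : ℝ) / M) ^ J.card := by
      rw [div_pow, ← mul_div_assoc, le_div_iff₀ (by positivity)]
      exact_mod_cast choose_ratio hMk J.card hJ3
    have e3 := key hn h₀ hP hk0 hM0 hY hQ1 (hXm x hx) hJP hJx hJ2 hJ4
    calc (((P.powersetCard k).filter (fun T => J ⊆ T)).card : ℝ) ≤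
          (((M - J.card).choose (k - J.card) : ℕ) : ℝ) := by exact_mod_cast e1
      _ ≤ _ := e2
      _ ≤ _ := mul_le_mul_of_nonneg_left e3 hch
  have hcardJ : ∀ x ∈ X, ((𝒥 x).card : ℝ) ≤ C₂ * (H : ℝ) ^ (ε / 2) := by
    intro x hx
    have e1 : (𝒥 x).card ≤ 2 ^ (pr x).primeFactors.card := by
      calc (𝒥 x).card ≤ ((pr x).primeFactors ∩ P).powerset.card := card_le_card (filter_subset _ _)
        _ = 2 ^ ((pr x).primeFactors ∩ P).card := card_powerset _
        _ ≤ _ := Nat.pow_le_pow_right (by norm_num) (card_le_card inter_subset_left)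
    have e2 := h2 (pr x).primeFactors (fun p hp => Nat.prime_of_mem_primeFactors hp)
    have e3 : ∏ p ∈ (pr x).primeFactors, p ≤ H ^ n := by
      calc ∏ p ∈ (pr x).primeFactors, p ≤ pr x :=
            Nat.le_of_dvd (Nat.pos_of_ne_zero (pr_ne (hXm x hx))) (Nat.prod_primeFactors_dvd _)
        _ ≤ ∏ _i : Fin n, H := prod_le_prod' fun i _ => ((hXm x hx).1 i).2
        _ = H ^ n := by rw [prod_const, card_univ, Fintype.card_fin]
    calc ((𝒥 x).card : ℝ) ≤ (2 : ℝ) ^ (pr x).primeFactors.card := by exact_mod_cast e1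
      _ ≤ C₂ * ((∏ p ∈ (pr x).primeFactors, p : ℕ) : ℝ) ^ (ε / (2 * n)) := e2
      _ ≤ C₂ * ((H : ℝ) ^ n) ^ (ε / (2 * n)) := by
          refine mul_le_mul_of_nonneg_left (Real.rpow_le_rpow (by positivity) ?_ (by positivity))
            (by linarith)
          exact_mod_cast e3
      _ = _ := by
          rw [← Real.rpow_natCast, ← Real.rpow_mul hH0.le]
          congr 2
          field_simp
  have hsum : (((P.powersetCard k).filter (fun T => Bad n H S₀ T Y)).card : ℝ) ≤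
      (n * C₂ * C₃) * (H : ℝ) ^ ε * (Y * W) * Q * M.choose k := by
    have e1 : ((P.powersetCard k).filter (fun T => Bad n H S₀ T Y)).card ≤
        ∑ x ∈ X, ∑ J ∈ 𝒥 x, ((P.powersetCard k).filter (fun T => J ⊆ T)).card :=
      (card_le_card hcov).trans (card_biUnion_le.trans (sum_le_sum fun x _ => card_biUnion_le))
    have e2 : (((P.powersetCard k).filter (fun T => Bad n H S₀ T Y)).card : ℝ) ≤
        ∑ x ∈ X, ∑ J ∈ 𝒥 x, (((P.powersetCard k).filter (fun T => J ⊆ T)).card : ℝ) := by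
      exact_mod_cast e1
    refine e2.trans ?_
    calc ∑ x ∈ X, ∑ J ∈ 𝒥 x, (((P.powersetCard k).filter (fun T => J ⊆ T)).card : ℝ)
        ≤ ∑ x ∈ X, (C₂ * (H : ℝ) ^ (ε / 2)) * ((M.choose k : ℝ) * (Q * (Y * W) *
            ∑ i₀, ∏ l ∈ univ.erase i₀, ((rad (x l).natAbs : ℝ))⁻¹)) := by
          refine sum_le_sum fun x hx => ?_
          refine (sum_le_sum (hJ x hx)).trans ?_
          rw [sum_const, nsmul_eq_mul]
          refine mul_le_mul_of_nonneg_right (hcardJ x hx) ?_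
          have : 0 ≤ ∑ i₀, ∏ l ∈ univ.erase i₀, ((rad (x l).natAbs : ℝ))⁻¹ :=
            sum_nonneg fun i _ => prod_nonneg fun l _ => by positivity
          positivity
      _ = (C₂ * (H : ℝ) ^ (ε / 2)) * ((M.choose k : ℝ) * (Q * (Y * W))) *
            ∑ i₀, ∑ x ∈ X, ∏ l ∈ univ.erase i₀, ((rad (x l).natAbs : ℝ))⁻¹ := by
          rw [sum_comm, mul_sum]
          refine sum_congr rfl fun x _ => ?_
          ring
      _ ≤ (C₂ * (H : ℝ) ^ (ε / 2)) * ((M.choose k : ℝ) * (Q * (Y * W))) *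
            ∑ _i₀ : Fin n, (C₃ * (H : ℝ) ^ (ε / 2)) := by
          refine mul_le_mul_of_nonneg_left (sum_le_sum fun i₀ _ => h3 H i₀ X hH hXm) (by positivity)
      _ = (n * C₂ * C₃) * ((H : ℝ) ^ (ε / 2) * (H : ℝ) ^ (ε / 2)) * (Y * W) * Q * M.choose k := by
          rw [sum_const, card_univ, Fintype.card_fin, nsmul_eq_mul]
          ring
      _ = _ := by
          rw [← Real.rpow_add hH0]
          congr 5
          ring
  calc _ ≤ ((n * C₂ * C₃) * (H : ℝ) ^ ε * (Y * W) * Q * M.choose k) * (M : ℝ) ^ n :=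
        mul_le_mul_of_nonneg_right hsum (by positivity)
    _ = (n * C₂ * C₃) * (H : ℝ) ^ ε * (Y * W) * ((N : ℝ) ^ (n - 1) * (k : ℝ) ^ n) * M.choose k := by
        rw [hQ]
        field_simp
    _ ≤ _ := by
        gcongr
        linarith

end Pool.Agent.X61.RS.Thr
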