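import Pool.Agent.X61.RS.NTerm
import Pool.Agent.Results.MP_2ec8a3_nt.FewPowersAllHeights

/-! abc triples, of all heights, composed of random primes and powers of few integers. -/

set_option autoImplicit false

namespace Pool.Agent.X61.RS

open Finset Pool.Agent.Results.MP_2ec8a3_nt.FewPowersAllHeights

/-- the abc triple `(a, b, a + b)` is composed of the primes `p₀ j`, `l j` and of powers of `h`
positive integers `y j ≤ Y`, and some `l j` divides it -/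
structure Tri {c k h : ℕ} (p₀ : Fin c → ℕ) (Y : ℕ) (l : Fin k → ℕ) (t : ℕ × ℕ)
    (y : Fin h → ℕ) (f : Fin 3 → Fin c → ℕ) (g : Fin 3 → Fin k → ℕ) (e : Fin 3 → Fin h → ℕ) :
    Prop where
  a0 : 0 < t.1
  b0 : 0 < t.2
  cop : Nat.Coprime t.1 t.2
  y1 : ∀ j, 1 ≤ y j ∧ y j ≤ Y
  rep : ∀ i, (![t.1, t.2, t.1 + t.2] : Fin 3 → ℕ) i =
    (∏ j, p₀ j ^ f i j) * (∏ j, l j ^ g i j) * ∏ j, y j ^ e i j
  div : ∃ j, l j ∣ t.1 * t.2 * (t.1 + t.2)

theorem prime_append3 {c k h : ℕ} (p₀ : Fin c → ℕ) (l : Fin k → ℕ) (y : Fin h → ℕ)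
    (f : Fin c → ℕ) (g : Fin k → ℕ) (e : Fin h → ℕ) :
    ∏ j : Fin (c + k + h), (Fin.append (Fin.append p₀ l) y j) ^
      (Fin.append (Fin.append f g) e j) = (∏ j, p₀ j ^ f j) * (∏ j, l j ^ g j) *
        ∏ j, y j ^ e j := by
  rw [Fin.prod_univ_add, Fin.prod_univ_add]
  simp only [Fin.append_left, Fin.append_right]

theorem pp_of {c k h X m : ℕ} {p₀ : Fin c → ℕ} {l : Fin k → ℕ} {y : Fin h → ℕ}
    {f : Fin c → ℕ} {g : Fin k → ℕ} {e : Fin h → ℕ} (hp : ∀ j, 1 ≤ p₀ j ∧ p₀ j ≤ X)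
    (hl : ∀ j, 1 ≤ l j ∧ l j ≤ X) (hy : ∀ j, 1 ≤ y j ∧ y j ≤ X)
    (hm : m = (∏ j, p₀ j ^ f j) * (∏ j, l j ^ g j) * ∏ j, y j ^ e j) :
    PowerProduct (c + k + h) X m := by
  refine ⟨Fin.append (Fin.append p₀ l) y, Fin.append (Fin.append f g) e, fun j => ?_, ?_⟩
  · refine Fin.addCases (fun j => ?_) (fun j => ?_) j
    · rw [Fin.append_left]
      refine Fin.addCases (fun j => ?_) (fun j => ?_) j
      · rw [Fin.append_left]; exact hp j
      · rw [Fin.append_right]; exact hl j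
    · rw [Fin.append_right]; exact hy j
  · rw [prime_append3]; exact hm

/-- the number of prime factors -/
theorem pf_card {c k h Y m : ℕ} {p₀ : Fin c → ℕ} {l : Fin k → ℕ} {y : Fin h → ℕ}
    {f : Fin c → ℕ} {g : Fin k → ℕ} {e : Fin h → ℕ} (hp : ∀ j, (p₀ j).Prime)
    (hl : ∀ j, (l j).Prime) (hy : ∀ j, 1 ≤ y j ∧ y j ≤ Y)
    (hm : m = (∏ j, p₀ j ^ f j) * (∏ j, l j ^ g j) * ∏ j, y j ^ e j) :
    m.primeFactors ⊆ (univ.image p₀ ∪ univ.image l) ∪
      univ.biUnion (fun j => (y j).primeFactors) := by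
  intro q hq
  rw [Nat.mem_primeFactors] at hq
  obtain ⟨hq, hd, -⟩ := hq
  rw [hm] at hd
  simp only [mem_union, mem_image, mem_biUnion, mem_univ, true_and]
  rcases (Nat.Prime.dvd_mul hq).1 hd with h1 | h1
  · left
    rcases (Nat.Prime.dvd_mul hq).1 h1 with h2 | h2
    · left
      obtain ⟨j, -, hj⟩ := (Prime.dvd_finsetProd_iff hq.prime _).1 h2
      exact ⟨j, ((Nat.prime_dvd_prime_iff_eq hq (hp j)).1 (hq.dvd_of_dvd_pow hj)).symm⟩
    · right
      obtain ⟨j, -, hj⟩ := (Prime.dvd_finsetProd_iff hq.prime _).1 h2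
      exact ⟨j, ((Nat.prime_dvd_prime_iff_eq hq (hl j)).1 (hq.dvd_of_dvd_pow hj)).symm⟩
  · right
    obtain ⟨j, -, hj⟩ := (Prime.dvd_finsetProd_iff hq.prime _).1 h1
    exact ⟨j, Nat.mem_primeFactors.2 ⟨hq, hq.dvd_of_dvd_pow hj, by have := (hy j).1; omega⟩⟩

theorem pf_log {m Y : ℕ} (h1 : 1 ≤ m) (h2 : m ≤ Y) : m.primeFactors.card ≤ Nat.log 2 Y := by
  have h3 : 2 ^ m.primeFactors.card ≤ m := by
    calc 2 ^ m.primeFactors.card = ∏ _q ∈ m.primeFactors, 2 := by rw [prod_const]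
      _ ≤ ∏ q ∈ m.primeFactors, q := prod_le_prod' fun q hq =>
          (Nat.prime_of_mem_primeFactors hq).two_le
      _ ≤ m := Nat.le_of_dvd h1 (Nat.prod_primeFactors_dvd m)
  exact Nat.le_log_of_pow_le (by norm_num) (h3.trans h2)

/-- the number of prime factors of the integers composed of the generators -/
theorem gen_card {c k h Y : ℕ} (p₀ : Fin c → ℕ) (l : Fin k → ℕ) {y : Fin h → ℕ}
    (hy : ∀ j, 1 ≤ y j ∧ y j ≤ Y) :
    ((univ.image p₀ ∪ univ.image l) ∪ univ.biUnion (fun j => (y j).primeFactors)).card ≤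
      c + k + h * Nat.log 2 Y := by
  refine (card_union_le _ _).trans (Nat.add_le_add ((card_union_le _ _).trans (Nat.add_le_add ?_ ?_)) ?_)
  · exact card_image_le.trans (by rw [card_univ, Fintype.card_fin])
  · exact card_image_le.trans (by rw [card_univ, Fintype.card_fin])
  · refine (card_biUnion_le.trans (sum_le_sum (g := fun _ => Nat.log 2 Y) fun j _ =>
      pf_log (hy j).1 (hy j).2)).trans (by rw [sum_const, smul_eq_mul, card_univ, Fintype.card_fin])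

/-- `log₂ N ≤ C N ^ η` -/
theorem log_le {η : ℝ} (hη : 0 < η) {N : ℕ} (hN : 1 ≤ N) :
    (Nat.log 2 N : ℝ) ≤ 2 / η * (N : ℝ) ^ η := by
  have hN0 : (0 : ℝ) < N := by exact_mod_cast hN
  have h1 : (2 : ℝ) ^ Nat.log 2 N ≤ N := by
    exact_mod_cast Nat.pow_log_le_self 2 (by omega)
  have h2 := Real.log_le_log (by positivity) h1
  rw [Real.log_pow] at h2
  have h3 := Real.log_le_rpow_div hN0.le hη
  have h4 := Real.log_two_gt_d9
  have h5 : (0 : ℝ) ≤ Nat.log 2 N := Nat.cast_nonneg _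
  have h6 : (Nat.log 2 N : ℝ) ≤ 2 * ((N : ℝ) ^ η / η) := by nlinarith
  refine h6.trans (le_of_eq ?_)
  ring

theorem Tri.pf {c k h Y : ℕ} {p₀ : Fin c → ℕ} {l : Fin k → ℕ} {t : ℕ × ℕ}
    {y : Fin h → ℕ} {f : Fin 3 → Fin c → ℕ} {g : Fin 3 → Fin k → ℕ} {e : Fin 3 → Fin h → ℕ}
    (H : Tri p₀ Y l t y f g e) (hp : ∀ j, (p₀ j).Prime) (hl : ∀ j, (l j).Prime) :
    (t.1 * t.2 * (t.1 + t.2)).primeFactors.card ≤ c + k + h * Nat.log 2 Y := by
  refine (card_le_card ?_).trans (gen_card p₀ l H.y1)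
  have h0 := H.rep 0
  have h1 := H.rep 1
  have h2 := H.rep 2
  simp only [Matrix.cons_val_zero, Matrix.cons_val_one, Matrix.cons_val] at h0 h1 h2
  have ha := H.a0
  have hb := H.b0
  rw [Nat.primeFactors_mul (by positivity) (by positivity), Nat.primeFactors_mul ha.ne' hb.ne']
  exact union_subset (union_subset (pf_card hp hl H.y1 h0) (pf_card hp hl H.y1 h1))
    (pf_card hp hl H.y1 h2)

/-- few tuples have a large triple -/
theorem large_count (c h k A : ℕ) (ε : ℝ) (hε : 0 < ε) : ∃ (K : ℕ) (C : ℝ), 0 < C ∧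
    ∀ (N : ℕ) (p₀ : Fin c → ℕ), 1 ≤ N → (∀ j, (p₀ j).Prime ∧ p₀ j ≤ N) →
      ∀ G : Finset (Fin k → ℕ), (∀ l ∈ G, (∀ j, (l j).Prime ∧ l j ≤ N) ∧
        ∃ (t : ℕ × ℕ) (y : Fin h → ℕ) (f : Fin 3 → Fin c → ℕ) (g : Fin 3 → Fin k → ℕ)
          (e : Fin 3 → Fin h → ℕ), Tri p₀ (N ^ (A + 1)) l t y f g e ∧
            (N ^ (A + 1)) ^ K ≤ t.1 + t.2) →
      (G.card : ℝ) ≤ C * (N : ℝ) ^ ((k : ℝ) - 1 + ε) := by
  classical
  obtain ⟨ε', hε'⟩ : ∃ ε' : ℝ, ε' = ε / (2 * (A + 1)) := ⟨_, rfl⟩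
  have hε0 : 0 < ε' := by rw [hε']; positivity
  obtain ⟨K, hK⟩ := result (c + k + h) ε' hε0
  refine ⟨K, (k * 2 ^ k : ℕ) * ((c + k : ℕ) + h * (2 / ε')) + 1, by positivity,
    fun N p₀ hN hp G hG => ?_⟩
  have hN0 : (0 : ℝ) < N := by exact_mod_cast hN
  have hN1 : (1 : ℝ) ≤ N := by exact_mod_cast hN
  choose! hl t y f g e htri hbig using hG
  rcases Nat.eq_zero_or_pos k with hk | hk
  · have : G = ∅ := by
      rw [eq_empty_iff_forall_notMem]
      intro l hlG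
      obtain ⟨j, -⟩ := (htri l hlG).div
      exact absurd j.2 (by omega)
    rw [this, card_empty, Nat.cast_zero]
    positivity
  obtain ⟨X, hX⟩ : ∃ X : ℕ, X = N ^ (A + 1) := ⟨_, rfl⟩
  rw [← hX] at htri hbig
  have hX1 : 1 ≤ X := by rw [hX]; exact Nat.one_le_pow _ _ hN
  have hNX : N ≤ X := by rw [hX]; exact Nat.le_self_pow (by omega) _
  have hXε : (X : ℝ) ^ ε' = (N : ℝ) ^ (ε / 2) := by
    rw [hX, Nat.cast_pow, ← Real.rpow_natCast, ← Real.rpow_mul hN0.le]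
    congr 1
    rw [hε']
    push_cast
    field_simp
  obtain ⟨hfin, hcard⟩ := hK X
  let 𝒯 : Finset (ℕ × ℕ) := G.image t
  have h𝒯 : (𝒯.card : ℝ) ≤ (N : ℝ) ^ (ε / 2) := by
    rw [← hXε]
    refine le_trans ?_ hcard
    have h1 : (𝒯 : Set (ℕ × ℕ)) ⊆ Triples (c + k + h) X K := by
      intro t' ht'
      rw [mem_coe, mem_image] at ht'
      obtain ⟨l, hlG, rfl⟩ := ht'
      have H := htri l hlG
      have h0 := H.rep 0
      have h1 := H.rep 1
      have h2 := H.rep 2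
      simp only [Matrix.cons_val_zero, Matrix.cons_val_one, Matrix.cons_val] at h0 h1 h2
      have e1 : ∀ j, 1 ≤ p₀ j ∧ p₀ j ≤ X := fun j => ⟨(hp j).1.one_le, (hp j).2.trans hNX⟩
      have e2 : ∀ j, 1 ≤ l j ∧ l j ≤ X := fun j =>
        ⟨(hl l hlG j).1.one_le, (hl l hlG j).2.trans hNX⟩
      exact ⟨H.a0, H.b0, H.cop, pp_of e1 e2 H.y1 h0, pp_of e1 e2 H.y1 h1, pp_of e1 e2 H.y1 h2,
        hbig l hlG⟩
    have h2 := Set.ncard_le_ncard h1 hfin
    rw [Set.ncard_coe_finset] at h2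
    exact_mod_cast h2
  let L : Finset ℕ := 𝒯.biUnion (fun t => (t.1 * t.2 * (t.1 + t.2)).primeFactors)
  have hL : L.card ≤ 𝒯.card * (c + k + h * Nat.log 2 X) := by
    refine (card_biUnion_le.trans (sum_le_sum (g := fun _ => c + k + h * Nat.log 2 X)
      fun t' ht' => ?_)).trans (by rw [sum_const, smul_eq_mul])
    rw [mem_image] at ht'
    obtain ⟨l, hlG, rfl⟩ := ht'
    exact (htri l hlG).pf (fun j => (hp j).1) (fun j => (hl l hlG j).1)
  let U : Finset (Fin k → ℕ) := (univ : Finset (Fin k)).biUnion (fun j₀ =>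
    Fintype.piFinset (fun j : Fin k => if j = j₀ then L else range (N + 1)))
  have hcov : G ⊆ U := by
    intro l hlG
    obtain ⟨j, hj⟩ := (htri l hlG).div
    refine mem_biUnion.2 ⟨j, mem_univ _, Fintype.mem_piFinset.2 fun j' => ?_⟩
    split_ifs with h3
    · rw [h3]
      refine mem_biUnion.2 ⟨t l, mem_image_of_mem _ hlG, ?_⟩
      have h4 := (htri l hlG).a0
      have h5 := (htri l hlG).b0
      exact Nat.mem_primeFactors.2 ⟨(hl l hlG j).1, hj, by positivity⟩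
    · rw [mem_range]
      exact Nat.lt_succ_of_le (hl l hlG j').2
  have hU : U.card ≤ k * (L.card * (N + 1) ^ (k - 1)) := by
    refine (card_biUnion_le.trans (sum_le_sum (g := fun _ => L.card * (N + 1) ^ (k - 1))
      fun j₀ _ => ?_)).trans (by rw [sum_const, smul_eq_mul, card_univ, Fintype.card_fin])
    rw [card_pi_one]
  have hN2 : (N + 1) ^ (k - 1) ≤ 2 ^ k * N ^ (k - 1) := by
    calc (N + 1) ^ (k - 1) ≤ (2 * N) ^ (k - 1) := Nat.pow_le_pow_left (by omega) _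
      _ = 2 ^ (k - 1) * N ^ (k - 1) := mul_pow _ _ _
      _ ≤ _ := Nat.mul_le_mul_right _ (Nat.pow_le_pow_right (by norm_num) (by omega))
  have hG1 : G.card ≤ k * ((𝒯.card * (c + k + h * Nat.log 2 X)) * (2 ^ k * N ^ (k - 1))) :=
    (card_le_card hcov).trans (hU.trans (Nat.mul_le_mul_left _ (Nat.mul_le_mul hL hN2)))
  have hG2 : (G.card : ℝ) ≤ k * (((𝒯.card : ℝ) * ((c : ℝ) + k + h * (Nat.log 2 X : ℝ))) *
      (2 ^ k * (N : ℝ) ^ (k - 1))) := by exact_mod_cast hG1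
  have hlog : (Nat.log 2 X : ℝ) ≤ 2 / ε' * (N : ℝ) ^ (ε / 2) := by
    rw [← hXε]
    exact log_le hε0 hX1
  have hNε : (1 : ℝ) ≤ (N : ℝ) ^ (ε / 2) := Real.one_le_rpow hN1 (by positivity)
  have hNk : (N : ℝ) ^ ((k : ℝ) - 1 + ε) =
      (N : ℝ) ^ (ε / 2) * (N : ℝ) ^ (ε / 2) * (N : ℝ) ^ (k - 1) := by
    rw [← Real.rpow_add hN0, ← Real.rpow_natCast (N : ℝ) (k - 1), ← Real.rpow_add hN0,
      Nat.cast_sub (by omega), Nat.cast_one]
    congr 1
    ring
  have h5 : (c : ℝ) + k + h * (Nat.log 2 X : ℝ) ≤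
      (((c + k : ℕ) : ℝ) + h * (2 / ε')) * (N : ℝ) ^ (ε / 2) := by
    have h6 : ((c + k : ℕ) : ℝ) ≤ ((c + k : ℕ) : ℝ) * (N : ℝ) ^ (ε / 2) :=
      le_mul_of_one_le_right (by positivity) hNε
    have h7 : (h : ℝ) * (Nat.log 2 X : ℝ) ≤ h * (2 / ε' * (N : ℝ) ^ (ε / 2)) :=
      mul_le_mul_of_nonneg_left hlog (Nat.cast_nonneg _)
    push_cast at h6 ⊢
    nlinarith
  rw [hNk]
  calc (G.card : ℝ) ≤ _ := hG2
    _ ≤ k * (((N : ℝ) ^ (ε / 2) * ((((c + k : ℕ) : ℝ) + h * (2 / ε')) * (N : ℝ) ^ (ε / 2))) *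
      (2 ^ k * (N : ℝ) ^ (k - 1))) := by gcongr
    _ = ((k * 2 ^ k : ℕ) : ℝ) * (((c + k : ℕ) : ℝ) + h * (2 / ε')) *
        ((N : ℝ) ^ (ε / 2) * (N : ℝ) ^ (ε / 2) * (N : ℝ) ^ (k - 1)) := by
        push_cast
        ring
    _ ≤ _ := by
        refine mul_le_mul_of_nonneg_right ?_ (by positivity)
        linarith

theorem exp_lt {x n m N K : ℕ} (hN : 1 ≤ N) (hx : 2 ≤ x) (h1 : x ^ n ≤ m) (h2 : m < N ^ K) :
    n < K * (Nat.log 2 N + 1) + 1 := by
  have h3 : 2 ^ n ≤ x ^ n := Nat.pow_le_pow_left hx n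
  have h4 : N ^ K ≤ (2 ^ (Nat.log 2 N + 1)) ^ K :=
    Nat.pow_le_pow_left (Nat.lt_pow_succ_log_self (by norm_num) N).le K
  rw [← pow_mul] at h4
  have h5 : 2 ^ n < 2 ^ ((Nat.log 2 N + 1) * K) := by omega
  have h6 := (Nat.pow_lt_pow_iff_right (by norm_num : 1 < 2)).1 h5
  rw [mul_comm] at h6
  omega

/-- few tuples have a small triple -/
theorem small_count (c h k K : ℕ) (ε : ℝ) (hε : 0 < ε) : ∃ C : ℝ, 0 < C ∧
    ∀ (N Y : ℕ) (p₀ : Fin c → ℕ), 1 ≤ N → 1 ≤ Y → Y ≤ N → (∀ j, (p₀ j).Prime ∧ p₀ j ≤ N) →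
      ∀ G : Finset (Fin k → ℕ), (∀ l ∈ G, Function.Injective l ∧ (∀ j, (l j).Prime ∧ l j ≤ N) ∧
        (∀ j i, l j ≠ p₀ i) ∧
        ∃ (t : ℕ × ℕ) (y : Fin h → ℕ) (f : Fin 3 → Fin c → ℕ) (g : Fin 3 → Fin k → ℕ)
          (e : Fin 3 → Fin h → ℕ), Tri p₀ Y l t y f g e ∧ t.1 + t.2 < N ^ K) →
      (G.card : ℝ) ≤ C * (Y : ℝ) ^ h * (N : ℝ) ^ ((k : ℝ) - 1 + ε) := by
  classical
  obtain ⟨m, hm⟩ : ∃ m : ℕ, m = 3 * c + 3 * k + 3 * h + 2 := ⟨_, rfl⟩
  obtain ⟨η, hη⟩ : ∃ η : ℝ, η = ε / m := ⟨_, rfl⟩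
  have hm0 : (0 : ℝ) < m := by rw [hm]; positivity
  have hη0 : 0 < η := by rw [hη]; positivity
  refine ⟨(k * (h + 1) * 2 ^ k : ℕ) * ((K : ℝ) * (2 / η + 1) + 2 + 2 / η) ^ m + 1, by positivity,
    fun N Y p₀ hN hY hYN hp G hG => ?_⟩
  have hN0 : (0 : ℝ) < N := by exact_mod_cast hN
  have hN1 : (1 : ℝ) ≤ N := by exact_mod_cast hN
  choose! hinj hl hne t y f g e htri hsm using hG
  rcases Nat.eq_zero_or_pos k with hk | hk
  · have : G = ∅ := by
      rw [eq_empty_iff_forall_notMem]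
      intro l hlG
      obtain ⟨j, -⟩ := (htri l hlG).div
      exact absurd j.2 (by omega)
    rw [this, card_empty, Nat.cast_zero]
    positivity
  obtain ⟨E, hE⟩ : ∃ E : ℕ, E = K * (Nat.log 2 N + 1) + 1 := ⟨_, rfl⟩
  let P : Finset (Fin k → ℕ) := Fintype.piFinset (fun _ : Fin k => range (N + 1))
  let Q : Finset (Fin h → ℕ) := Fintype.piFinset (fun _ : Fin h => Icc 1 Y)
  let U₁ : Finset (Fin k → ℕ) := Q.biUnion (fun y => (univ : Finset (Fin k)).biUnion (fun j₀ =>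
    Fintype.piFinset (fun j : Fin k => if j = j₀ then univ.biUnion (fun i => (y i).primeFactors)
      else range (N + 1))))
  let D := Q ×ˢ
    ((Fintype.piFinset (fun _ : Fin 3 => Fintype.piFinset (fun _ : Fin c => range E))) ×ˢ
    ((Fintype.piFinset (fun _ : Fin 3 => Fintype.piFinset (fun _ : Fin k => range E))) ×ˢ
    ((Fintype.piFinset (fun _ : Fin 3 => Fintype.piFinset (fun _ : Fin h => range E))) ×ˢ
    (univ : Finset (Fin k)))))
  let σ : Fin 3 → ℤ := ![1, 1, -1]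
  let U₂ : Finset (Fin k → ℕ) := D.biUnion (fun d => P.filter (fun l : Fin k → ℕ =>
    ∑ i, (σ i * (∏ j, (p₀ j : ℤ) ^ d.2.1 i j) * ∏ j, (d.1 j : ℤ) ^ d.2.2.2.1 i j) *
      ∏ j, (l j : ℤ) ^ d.2.2.1 i j = 0 ∧
    ∃ e₀, ∑ i ∈ univ.filter (fun i => d.2.2.1 i d.2.2.2.2 = e₀),
      (σ i * (∏ j, (p₀ j : ℤ) ^ d.2.1 i j) * ∏ j, (d.1 j : ℤ) ^ d.2.2.2.1 i j) *
        ∏ j ∈ univ.erase d.2.2.2.2, (l j : ℤ) ^ d.2.2.1 i j ≠ 0))
  have hcov : G ⊆ U₁ ∪ U₂ := by
    intro l hlG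
    have H := htri l hlG
    have hpr := hl l hlG
    obtain ⟨j₀, hj₀⟩ := H.div
    have hq := (hpr j₀).1
    have hyQ : y l ∈ Q := Fintype.mem_piFinset.2 fun j => mem_Icc.2 (H.y1 j)
    rw [mem_union]
    by_cases h1 : ∃ i, l j₀ ∣ y l i
    · left
      obtain ⟨i, hi⟩ := h1
      refine mem_biUnion.2 ⟨y l, hyQ, mem_biUnion.2 ⟨j₀, mem_univ _,
        Fintype.mem_piFinset.2 fun j' => ?_⟩⟩
      split_ifs with h3
      · rw [h3]
        exact mem_biUnion.2 ⟨i, mem_univ _, Nat.mem_primeFactors.2 ⟨hq, hi, by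
          have := (H.y1 i).1
          omega⟩⟩
      · rw [mem_range]
        exact Nat.lt_succ_of_le (hpr j').2
    right
    push Not at h1
    -- the members
    let M : Fin 3 → ℕ := ![(t l).1, (t l).2, (t l).1 + (t l).2]
    have hM : ∀ i, M i = (∏ j, p₀ j ^ f l i j) * (∏ j, l j ^ g l i j) *
      ∏ j, y l j ^ e l i j := H.rep
    have hMlt : ∀ i, 0 < M i ∧ M i < N ^ K := by
      have ha := H.a0
      have hb := H.b0
      have hs := hsm l hlG
      intro i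
      fin_cases i
      · change 0 < (t l).1 ∧ (t l).1 < N ^ K
        omega
      · change 0 < (t l).2 ∧ (t l).2 < N ^ K
        omega
      · change 0 < (t l).1 + (t l).2 ∧ (t l).1 + (t l).2 < N ^ K
        omega
    have hle : ∀ i (x n : ℕ), x ^ n ∣ M i → x ^ n ≤ M i := fun i x n h =>
      Nat.le_of_dvd (hMlt i).1 h
    have hd1 : ∀ i j, p₀ j ^ f l i j ∣ M i := fun i j => by
      rw [hM i]
      exact (((dvd_prod_of_mem _ (mem_univ j)).mul_right _).mul_right _)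
    have hd2 : ∀ i j, l j ^ g l i j ∣ M i := fun i j => by
      rw [hM i]
      exact (((dvd_prod_of_mem (fun j => l j ^ g l i j) (mem_univ j)).mul_left _).mul_right _)
    have hd3 : ∀ i j, y l j ^ e l i j ∣ M i := fun i j => by
      rw [hM i]
      exact (dvd_prod_of_mem (fun j => y l j ^ e l i j) (mem_univ j)).mul_left _
    let e' : Fin 3 → Fin h → ℕ := fun i j => if y l j = 1 then 0 else e l i j
    have he' : ∀ i j, y l j ^ e' i j = y l j ^ e l i j := by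
      intro i j
      change y l j ^ (if y l j = 1 then 0 else e l i j) = _
      split_ifs with h3
      · rw [h3, one_pow, one_pow]
      · rfl
    have hcop : ∀ i i', i ≠ i' → Nat.Coprime (M i) (M i') := by
      have hc := H.cop
      have hc1 : Nat.Coprime (t l).1 ((t l).1 + (t l).2) := by
        rw [Nat.coprime_self_add_right]; exact hc
      have hc2 : Nat.Coprime (t l).2 ((t l).1 + (t l).2) := by
        rw [Nat.coprime_add_self_right]; exact hc.symm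
      intro i i' hii
      fin_cases i <;> fin_cases i'
      · exact absurd rfl hii
      · exact hc
      · exact hc1
      · exact hc.symm
      · exact absurd rfl hii
      · exact hc2
      · exact hc1.symm
      · exact hc2.symm
      · exact absurd rfl hii
    obtain ⟨i₀, hi₀⟩ : ∃ i, l j₀ ∣ M i := by
      rcases (Nat.Prime.dvd_mul hq).1 hj₀ with h3 | h3
      · rcases (Nat.Prime.dvd_mul hq).1 h3 with h4 | h4
        · exact ⟨0, h4⟩
        · exact ⟨1, h4⟩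
      · exact ⟨2, h3⟩
    have hg0 : g l i₀ j₀ ≠ 0 := by
      rw [hM i₀] at hi₀
      rcases (Nat.Prime.dvd_mul hq).1 hi₀ with h3 | h3
      · rcases (Nat.Prime.dvd_mul hq).1 h3 with h4 | h4
        · obtain ⟨j, -, hj⟩ := (Prime.dvd_finsetProd_iff hq.prime _).1 h4
          exact absurd ((Nat.prime_dvd_prime_iff_eq hq (hp j).1).1 (hq.dvd_of_dvd_pow hj))
            (hne l hlG j₀ j)
        · obtain ⟨j, -, hj⟩ := (Prime.dvd_finsetProd_iff hq.prime _).1 h4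
          have h5 := (Nat.prime_dvd_prime_iff_eq hq (hpr j).1).1 (hq.dvd_of_dvd_pow hj)
          have h6 := hinj l hlG h5
          rw [← h6] at hj
          intro h7
          rw [h7, pow_zero] at hj
          exact hq.one_lt.ne' (Nat.dvd_one.1 hj)
      · obtain ⟨j, -, hj⟩ := (Prime.dvd_finsetProd_iff hq.prime _).1 h3
        exact absurd (hq.dvd_of_dvd_pow hj) (h1 j)
    have hgi : ∀ i, i ≠ i₀ → g l i j₀ = 0 := by
      intro i hi
      by_contra h3
      have h4 : l j₀ ∣ M i := (dvd_pow_self _ h3).trans (hd2 i j₀)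
      have h5 := Nat.dvd_gcd h4 hi₀
      rw [hcop i i₀ hi] at h5
      exact hq.one_lt.ne' (Nat.dvd_one.1 h5)
    refine mem_biUnion.2 ⟨(y l, f l, g l, e', j₀), ?_, ?_⟩
    · simp only [D, mem_product, Fintype.mem_piFinset, mem_range, mem_univ, and_true]
      refine ⟨hyQ, fun i j => ?_, fun i j => ?_, fun i j => ?_⟩
      · rw [hE]
        exact exp_lt hN (hp j).1.two_le (hle i _ _ (hd1 i j)) (hMlt i).2
      · rw [hE]
        exact exp_lt hN (hpr j).1.two_le (hle i _ _ (hd2 i j)) (hMlt i).2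
      · rw [hE]
        change (if y l j = 1 then 0 else e l i j) < _
        split_ifs with h3
        · omega
        · exact exp_lt hN (by have := (H.y1 j).1; omega) (hle i _ _ (hd3 i j)) (hMlt i).2
    · have hMz : ∀ i, (M i : ℤ) = ((∏ j, (p₀ j : ℤ) ^ f l i j) *
          ∏ j, (y l j : ℤ) ^ e' i j) * ∏ j, (l j : ℤ) ^ g l i j := by
        intro i
        rw [hM i]
        push_cast
        rw [show ∏ j, (y l j : ℤ) ^ e l i j = ∏ j, (y l j : ℤ) ^ e' i j from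
          prod_congr rfl fun j _ => by exact_mod_cast (he' i j).symm]
        ring
      refine mem_filter.2 ⟨Fintype.mem_piFinset.2 fun j => ?_, ?_, g l i₀ j₀, ?_⟩
      · rw [mem_range]
        exact Nat.lt_succ_of_le (hpr j).2
      · have h3 : ∀ i, (σ i * (∏ j, (p₀ j : ℤ) ^ f l i j) * ∏ j, (y l j : ℤ) ^ e' i j) *
            ∏ j, (l j : ℤ) ^ g l i j = σ i * (M i : ℤ) := by
          intro i
          rw [hMz i]
          ring
        change ∑ i, (σ i * (∏ j, (p₀ j : ℤ) ^ f l i j) * ∏ j, (y l j : ℤ) ^ e' i j) *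
            ∏ j, (l j : ℤ) ^ g l i j = 0
        rw [sum_congr rfl fun i _ => h3 i, Fin.sum_univ_three]
        change 1 * (((t l).1 : ℕ) : ℤ) + 1 * (((t l).2 : ℕ) : ℤ) +
          (-1) * ((((t l).1 + (t l).2 : ℕ)) : ℤ) = 0
        push_cast
        ring
      · have h3 : univ.filter (fun i => g l i j₀ = g l i₀ j₀) = {i₀} := by
          ext i
          simp only [mem_filter, mem_univ, true_and, mem_singleton]
          constructor
          · intro h4
            by_contra h5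
            rw [hgi i h5] at h4
            exact hg0 h4.symm
          · rintro rfl
            rfl
        change ∑ i ∈ univ.filter (fun i => g l i j₀ = g l i₀ j₀),
          (σ i * (∏ j, (p₀ j : ℤ) ^ f l i j) * ∏ j, (y l j : ℤ) ^ e' i j) *
            ∏ j ∈ univ.erase j₀, (l j : ℤ) ^ g l i j ≠ 0
        rw [h3, sum_singleton]
        have hσ : σ i₀ ≠ 0 := by
          have : ∀ i, σ i ≠ 0 := by
            intro i
            fin_cases i <;> simp [σ]
          exact this i₀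
        refine mul_ne_zero (mul_ne_zero (mul_ne_zero hσ ?_) ?_) ?_
        · exact prod_ne_zero_iff.2 fun j _ => pow_ne_zero _ (by exact_mod_cast (hp j).1.ne_zero)
        · exact prod_ne_zero_iff.2 fun j _ => pow_ne_zero _ (by
            have := (H.y1 j).1
            exact_mod_cast (by omega : y l j ≠ 0))
        · exact prod_ne_zero_iff.2 fun j _ => pow_ne_zero _ (by exact_mod_cast (hpr j).1.ne_zero)
  have hQ : Q.card = Y ^ h := by
    simp only [Q, Fintype.card_piFinset, prod_const, card_univ, Fintype.card_fin, Nat.card_Icc]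
    congr 1
  have hU₁ : U₁.card ≤ Y ^ h * (k * ((h * Nat.log 2 Y) * (N + 1) ^ (k - 1))) := by
    refine (card_biUnion_le.trans (sum_le_sum (g := fun _ => k * ((h * Nat.log 2 Y) *
      (N + 1) ^ (k - 1))) fun y hy => ?_)).trans (by rw [sum_const, smul_eq_mul, hQ])
    refine (card_biUnion_le.trans (sum_le_sum (g := fun _ => (h * Nat.log 2 Y) *
      (N + 1) ^ (k - 1)) fun j₀ _ => ?_)).trans
      (by rw [sum_const, smul_eq_mul, card_univ, Fintype.card_fin])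
    rw [card_pi_one]
    refine Nat.mul_le_mul_right _ ?_
    have hy' := Fintype.mem_piFinset.1 hy
    refine (card_biUnion_le.trans (sum_le_sum (g := fun _ => Nat.log 2 Y) fun i _ =>
      pf_log (mem_Icc.1 (hy' i)).1 (mem_Icc.1 (hy' i)).2)).trans
      (by rw [sum_const, smul_eq_mul, card_univ, Fintype.card_fin])
  have hD : D.card = Y ^ h * (E ^ (c * 3) * (E ^ (k * 3) * (E ^ (h * 3) * k))) := by
    simp only [D, card_product, Fintype.card_piFinset, prod_const, card_univ, Fintype.card_fin,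
      card_range, ← pow_mul, hQ]
  have hU₂ : U₂.card ≤ D.card * (E * (N + 1) ^ (k - 1)) := by
    refine (card_biUnion_le.trans (sum_le_sum (g := fun _ => E * (N + 1) ^ (k - 1))
      fun d hd => ?_)).trans (by rw [sum_const, smul_eq_mul])
    have he : ∀ i j, d.2.2.1 i j < E := by
      simp only [D, mem_product, Fintype.mem_piFinset, mem_range] at hd
      exact hd.2.2.1
    exact zeros_count 3 k N E
      (fun i => σ i * (∏ j, (p₀ j : ℤ) ^ d.2.1 i j) * ∏ j, (d.1 j : ℤ) ^ d.2.2.2.1 i j)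
      d.2.2.1 he d.2.2.2.2
  have hN2 : (N + 1) ^ (k - 1) ≤ 2 ^ k * N ^ (k - 1) := by
    calc (N + 1) ^ (k - 1) ≤ (2 * N) ^ (k - 1) := Nat.pow_le_pow_left (by omega) _
      _ = 2 ^ (k - 1) * N ^ (k - 1) := mul_pow _ _ _
      _ ≤ _ := Nat.mul_le_mul_right _ (Nat.pow_le_pow_right (by norm_num) (by omega))
  obtain ⟨F, hF⟩ : ∃ F : ℕ, F = E + Nat.log 2 Y := ⟨_, rfl⟩
  have hE1 : 1 ≤ E := by rw [hE]; omega
  have hF1 : 1 ≤ F := by omega
  have hEF : E ≤ F := by omega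
  have hlF : Nat.log 2 Y ≤ F ^ m := by
    calc Nat.log 2 Y ≤ F := by omega
      _ = F ^ 1 := (pow_one F).symm
      _ ≤ F ^ m := Nat.pow_le_pow_right hF1 (by omega)
  have hEm : E ^ (c * 3) * (E ^ (k * 3) * (E ^ (h * 3) * k)) * E ≤ F ^ m * k := by
    calc E ^ (c * 3) * (E ^ (k * 3) * (E ^ (h * 3) * k)) * E
        = E ^ (3 * c + 3 * k + 3 * h + 1) * k := by ring
      _ ≤ F ^ (3 * c + 3 * k + 3 * h + 1) * k :=
          Nat.mul_le_mul_right _ (Nat.pow_le_pow_left hEF _)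
      _ ≤ F ^ m * k := Nat.mul_le_mul_right _ (Nat.pow_le_pow_right hF1 (by omega))
  have hG1 : G.card ≤ (k * (h + 1) * 2 ^ k) * F ^ m * Y ^ h * N ^ (k - 1) := by
    calc G.card ≤ U₁.card + U₂.card := (card_le_card hcov).trans (card_union_le _ _)
      _ ≤ Y ^ h * (k * ((h * F ^ m) * (2 ^ k * N ^ (k - 1)))) +
          Y ^ h * ((F ^ m * k) * (2 ^ k * N ^ (k - 1))) := by
          refine Nat.add_le_add (hU₁.trans ?_) (hU₂.trans ?_)
          · exact Nat.mul_le_mul_left _ (Nat.mul_le_mul_left _ (Nat.mul_le_mul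
              (Nat.mul_le_mul_left _ hlF) hN2))
          · rw [hD]
            calc Y ^ h * (E ^ (c * 3) * (E ^ (k * 3) * (E ^ (h * 3) * k))) *
                  (E * (N + 1) ^ (k - 1))
                = Y ^ h * ((E ^ (c * 3) * (E ^ (k * 3) * (E ^ (h * 3) * k)) * E) *
                  (N + 1) ^ (k - 1)) := by ring
              _ ≤ _ := Nat.mul_le_mul_left _ (Nat.mul_le_mul hEm hN2)
      _ = _ := by ring
  have hG2 : (G.card : ℝ) ≤ ((k * (h + 1) * 2 ^ k : ℕ) : ℝ) * (F : ℝ) ^ m * (Y : ℝ) ^ h *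
      (N : ℝ) ^ (k - 1) := by exact_mod_cast hG1
  have hFr : (F : ℝ) ≤ ((K : ℝ) * (2 / η + 1) + 2 + 2 / η) * (N : ℝ) ^ η := by
    have h3 := log_le hη0 hN
    have h4 : (Nat.log 2 Y : ℝ) ≤ 2 / η * (N : ℝ) ^ η := by
      refine le_trans ?_ h3
      exact_mod_cast Nat.log_mono_right hYN
    have h5 : (1 : ℝ) ≤ (N : ℝ) ^ η := Real.one_le_rpow hN1 hη0.le
    rw [hF, hE]
    push_cast
    have h6 : (K : ℝ) * (Nat.log 2 N + 1) ≤ (K : ℝ) * (2 / η * (N : ℝ) ^ η + (N : ℝ) ^ η) :=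
      mul_le_mul_of_nonneg_left (by linarith) (Nat.cast_nonneg _)
    nlinarith
  have hFm : (F : ℝ) ^ m ≤ ((K : ℝ) * (2 / η + 1) + 2 + 2 / η) ^ m * (N : ℝ) ^ ε := by
    calc (F : ℝ) ^ m ≤ (((K : ℝ) * (2 / η + 1) + 2 + 2 / η) * (N : ℝ) ^ η) ^ m :=
          pow_le_pow_left₀ (Nat.cast_nonneg _) hFr m
      _ = _ := by
          rw [mul_pow, ← Real.rpow_natCast ((N : ℝ) ^ η), ← Real.rpow_mul hN0.le]
          congr 2
          rw [hη]
          field_simp
  have hNk : (N : ℝ) ^ ((k : ℝ) - 1 + ε) = (N : ℝ) ^ ε * (N : ℝ) ^ (k - 1) := by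
    rw [Real.rpow_add hN0, mul_comm, ← Real.rpow_natCast, Nat.cast_sub (by omega), Nat.cast_one]
  rw [hNk]
  calc (G.card : ℝ) ≤ _ := hG2
    _ ≤ ((k * (h + 1) * 2 ^ k : ℕ) : ℝ) *
        (((K : ℝ) * (2 / η + 1) + 2 + 2 / η) ^ m * (N : ℝ) ^ ε) * (Y : ℝ) ^ h *
        (N : ℝ) ^ (k - 1) := by gcongr
    _ = (((k * (h + 1) * 2 ^ k : ℕ) : ℝ) * ((K : ℝ) * (2 / η + 1) + 2 + 2 / η) ^ m) *
        (Y : ℝ) ^ h * ((N : ℝ) ^ ε * (N : ℝ) ^ (k - 1)) := by ring
    _ ≤ _ := by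
        refine mul_le_mul_of_nonneg_right (mul_le_mul_of_nonneg_right ?_ (by positivity))
          (by positivity)
        linarith

end Pool.Agent.X61.RS
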