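import Mathlib

/-! Zeros of sums of monomials in a box. -/

set_option autoImplicit false

namespace Pool.Agent.X61.RS

open Finset Polynomial

theorem card_pi_one {k N : ℕ} (j₀ : Fin k) (L : Finset ℕ) :
    (Fintype.piFinset (fun j : Fin k => if j = j₀ then L else range (N + 1))).card =
      L.card * (N + 1) ^ (k - 1) := by
  rw [Fintype.card_piFinset, ← mul_prod_erase univ _ (mem_univ j₀), if_pos rfl]
  congr 1
  have h1 : ∀ j ∈ univ.erase j₀, (if j = j₀ then L else range (N + 1)).card = N + 1 := by
    intro j hj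
    rw [if_neg (ne_of_mem_erase hj), card_range]
  rw [prod_congr rfl h1, prod_const, card_erase_of_mem (mem_univ _), card_univ, Fintype.card_fin]

open Classical in
/-- zeros of a sum of monomials, which is not identically zero as a polynomial in one variable -/
theorem zeros_count (n k N R : ℕ) (c : Fin n → ℤ) (e : Fin n → Fin k → ℕ)
    (he : ∀ i j, e i j < R) (j₀ : Fin k) :
    ((Fintype.piFinset (fun _ : Fin k => range (N + 1))).filter (fun l : Fin k → ℕ =>
      ∑ i, c i * ∏ j, (l j : ℤ) ^ e i j = 0 ∧ ∃ e₀, ∑ i ∈ univ.filter (fun i => e i j₀ = e₀),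
        c i * ∏ j ∈ univ.erase j₀, (l j : ℤ) ^ e i j ≠ 0)).card ≤ R * (N + 1) ^ (k - 1) := by
  set Z := (Fintype.piFinset (fun _ : Fin k => range (N + 1))).filter (fun l : Fin k → ℕ =>
      ∑ i, c i * ∏ j, (l j : ℤ) ^ e i j = 0 ∧ ∃ e₀, ∑ i ∈ univ.filter (fun i => e i j₀ = e₀),
        c i * ∏ j ∈ univ.erase j₀, (l j : ℤ) ^ e i j ≠ 0) with hZ
  have h1 : Z.card ≤ R * (Z.image (fun l => Function.update l j₀ 0)).card := by
    refine card_le_mul_card_image Z R fun b hb => ?_
    rw [mem_image] at hb
    obtain ⟨l₀, hl₀, rfl⟩ := hb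
    rw [hZ, mem_filter] at hl₀
    obtain ⟨-, -, e₀, he₀⟩ := hl₀
    obtain ⟨Q, hQ⟩ : ∃ Q : ℤ[X], Q = ∑ i, C (c i * ∏ j ∈ univ.erase j₀, (l₀ j : ℤ) ^ e i j) *
      X ^ (e i j₀) := ⟨_, rfl⟩
    have hcoeff : Q.coeff e₀ = ∑ i ∈ univ.filter (fun i => e i j₀ = e₀),
        c i * ∏ j ∈ univ.erase j₀, (l₀ j : ℤ) ^ e i j := by
      rw [hQ, finsetSum_coeff, sum_filter]
      refine sum_congr rfl fun i _ => ?_
      rw [coeff_C_mul, coeff_X_pow]
      by_cases h : e i j₀ = e₀
      · rw [if_pos h, if_pos h.symm, mul_one]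
      · rw [if_neg h, if_neg (fun h' => h h'.symm), mul_zero]
    have hQ0 : Q ≠ 0 := by
      intro h
      rw [h, coeff_zero] at hcoeff
      exact he₀ hcoeff.symm
    have hdeg : Q.natDegree ≤ R := by
      rw [hQ]
      refine natDegree_sum_le_of_forall_le _ _ fun i _ => ?_
      refine (natDegree_C_mul_X_pow_le _ _).trans (he i j₀).le
    have h2 : (Z.filter (fun l => Function.update l j₀ 0 = Function.update l₀ j₀ 0)).card ≤
        Q.roots.toFinset.card := by
      refine card_le_card_of_injOn (fun l => (l j₀ : ℤ)) ?_ ?_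
      · intro l hl
        rw [mem_coe, mem_filter, hZ, mem_filter] at hl
        obtain ⟨⟨-, h3, -⟩, h4⟩ := hl
        have h5 : ∀ j ∈ univ.erase j₀, l j = l₀ j := by
          intro j hj
          have := congrFun h4 j
          rwa [Function.update_of_ne (ne_of_mem_erase hj), Function.update_of_ne
            (ne_of_mem_erase hj)] at this
        rw [mem_coe, Multiset.mem_toFinset, mem_roots hQ0, IsRoot.def, hQ, eval_finsetSum]
        rw [← h3]
        refine sum_congr rfl fun i _ => ?_
        rw [eval_mul, eval_C, eval_pow, eval_X, ← mul_prod_erase univ _ (mem_univ j₀)]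
        rw [prod_congr rfl (fun j hj => by rw [← h5 j hj] :
          ∀ j ∈ univ.erase j₀, (l₀ j : ℤ) ^ e i j = (l j : ℤ) ^ e i j)]
        ring
      · intro l hl l' hl' h
        rw [mem_coe, mem_filter] at hl hl'
        have h6 : (l j₀ : ℤ) = l' j₀ := h
        have h5 : l j₀ = l' j₀ := by exact_mod_cast h6
        funext j
        by_cases hj : j = j₀
        · rw [hj, h5]
        · have := congrFun (hl.2.trans hl'.2.symm) j
          rwa [Function.update_of_ne hj, Function.update_of_ne hj] at this
    refine h2.trans ((Multiset.toFinset_card_le _).trans ((card_roots' Q).trans hdeg))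
  refine h1.trans (Nat.mul_le_mul_left _ ?_)
  calc (Z.image (fun l => Function.update l j₀ 0)).card
      ≤ (Fintype.piFinset (fun j : Fin k => if j = j₀ then {0} else range (N + 1))).card := by
        refine card_le_card fun b hb => ?_
        rw [mem_image] at hb
        obtain ⟨l, hl, rfl⟩ := hb
        rw [hZ, mem_filter, Fintype.mem_piFinset] at hl
        rw [Fintype.mem_piFinset]
        intro j
        by_cases hj : j = j₀
        · rw [if_pos hj, hj, Function.update_self, mem_singleton]
        · rw [if_neg hj, Function.update_of_ne hj]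
          exact hl.1 j
    _ = (N + 1) ^ (k - 1) := by rw [card_pi_one, card_singleton, one_mul]

end Pool.Agent.X61.RS
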